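import Pool.Agent.Y213.R1.Law

/-! Translation by a point whose coordinates are congruent to those of the point at infinity modulo
`d` is the identity modulo `d`, for all `d` (also for the primes of bad reduction). -/

set_option autoImplicit false

namespace Pool.Agent.Y213.R1

open WeierstrassCurve Pool.Agent.H901R3.MS

/-- integral vectors with coprime coordinates -/
def Prim {n : ℕ} (V : Fin n → ℤ) : Prop := ∃ W : Fin n → ℤ, ∑ i, V i * W i = 1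

theorem exists_prim {n : ℕ} (x : Fin n → ℚ) (hx : x ≠ 0) :
    ∃ (V : Fin n → ℤ) (c : ℚ), Prim V ∧ c ≠ 0 ∧ ∀ i, (V i : ℚ) = c * x i := by
  classical
  -- clear denominators
  set N : ℕ := ∏ i, (x i).den with hN
  have hN0 : N ≠ 0 := Finset.prod_ne_zero_iff.2 fun i _ => (x i).den_ne_zero
  have h1 : ∀ i, ∃ u : ℤ, (u : ℚ) = N * x i := by
    intro i
    refine ⟨(x i).num * ∏ j ∈ Finset.univ.erase i, ((x j).den : ℤ), ?_⟩
    have h2 : (N : ℚ) = (x i).den * ∏ j ∈ Finset.univ.erase i, ((x j).den : ℚ) := by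
      rw [hN, ← Finset.mul_prod_erase Finset.univ _ (Finset.mem_univ i)]
      push_cast
      rfl
    rw [h2]
    push_cast
    have h3 : (x i).den * x i = (x i).num := Rat.den_mul_eq_num _
    rw [← h3]
    ring
  choose u hu using h1
  obtain ⟨i₀, hi₀⟩ := Function.ne_iff.1 hx
  have hu0 : u i₀ ≠ 0 := by
    intro h
    have h2 := hu i₀
    rw [h, Int.cast_zero] at h2
    have h3 : (N : ℚ) ≠ 0 := by exact_mod_cast hN0
    exact hi₀ ((mul_eq_zero.1 h2.symm).resolve_left h3)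
  obtain ⟨g, hg⟩ := (IsPrincipalIdealRing.principal (Ideal.span (Set.range u))).principal
  have hgu : ∀ i, ∃ v : ℤ, u i = g * v := by
    intro i
    have h2 : u i ∈ Ideal.span (Set.range u) := Ideal.subset_span ⟨i, rfl⟩
    rw [hg, Ideal.submodule_span_eq, Ideal.mem_span_singleton] at h2
    exact h2
  choose v hv using hgu
  have hg0 : g ≠ 0 := by
    intro h
    apply hu0
    rw [hv i₀, h, zero_mul]
  have hgm : g ∈ Ideal.span (Set.range u) := by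
    rw [hg, Ideal.submodule_span_eq]
    exact Ideal.mem_span_singleton_self g
  rw [Ideal.span, Finsupp.mem_span_range_iff_exists_finsupp] at hgm
  obtain ⟨c, hc⟩ := hgm
  refine ⟨v, N / g, ⟨fun i => c i, ?_⟩, ?_, ?_⟩
  · have h2 : g * ∑ i, v i * c i = g * 1 := by
      rw [Finset.mul_sum, mul_one]
      conv_rhs => rw [← hc]
      rw [Finsupp.sum_fintype _ _ (fun _ => by simp)]
      refine Finset.sum_congr rfl fun i _ => ?_
      rw [smul_eq_mul, hv i]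
      ring
    exact mul_left_cancel₀ hg0 h2
  · have h3 : (N : ℚ) ≠ 0 := by exact_mod_cast hN0
    have h4 : (g : ℚ) ≠ 0 := by exact_mod_cast hg0
    exact div_ne_zero h3 h4
  · intro i
    have h4 : (g : ℚ) ≠ 0 := by exact_mod_cast hg0
    have h5 := hu i
    rw [hv i] at h5
    push_cast at h5
    field_simp
    linear_combination h5

variable {a b : ℤ}

theorem rep_ne_zero {F : Type} [Field F] {a b : F} (P : Pt a b) : rep P ≠ 0 := by
  rcases P with _ | ⟨x, y, h⟩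
  · intro h
    have h1 := congrFun h 1
    simp [rep] at h1
  · intro h
    have h1 := congrFun h 2
    simp [rep] at h1

theorem rep_eqn {F : Type} [Field F] {a b : F} (P : Pt a b) :
    rep P 1 ^ 2 * rep P 2 = rep P 0 ^ 3 + a * rep P 0 * rep P 2 ^ 2 + b * rep P 2 ^ 3 := by
  rcases P with _ | ⟨x, y, h⟩
  · simp [rep]
  · have h1 := eqn_of h
    unfold Eqn at h1
    simp only [rep]
    simp
    exact h1

/-- primitive integral coordinates -/
noncomputable def vec (P : Pt (a : ℚ) (b : ℚ)) : Fin 3 → ℤ :=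
  (exists_prim (rep P) (rep_ne_zero P)).choose

theorem vec_spec (P : Pt (a : ℚ) (b : ℚ)) :
    ∃ c : ℚ, Prim (vec P) ∧ c ≠ 0 ∧ ∀ i, (vec P i : ℚ) = c * rep P i :=
  (exists_prim (rep P) (rep_ne_zero P)).choose_spec

theorem vec_prim (P : Pt (a : ℚ) (b : ℚ)) : Prim (vec P) := (vec_spec P).choose_spec.1

theorem vec_eqn (P : Pt (a : ℚ) (b : ℚ)) :
    vec P 1 ^ 2 * vec P 2 = vec P 0 ^ 3 + a * vec P 0 * vec P 2 ^ 2 + b * vec P 2 ^ 3 := by
  obtain ⟨c, _, hc, h⟩ := vec_spec P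
  have h1 := rep_eqn P
  have h2 : ((vec P 1 ^ 2 * vec P 2 : ℤ) : ℚ) =
      ((vec P 0 ^ 3 + a * vec P 0 * vec P 2 ^ 2 + b * vec P 2 ^ 3 : ℤ) : ℚ) := by
    push_cast
    rw [h 0, h 1, h 2]
    linear_combination c ^ 3 * h1
  exact_mod_cast h2

theorem par_vec (P Q : Pt (a : ℚ) (b : ℚ)) :
    Par (L1 a b (vec P) (vec Q)) (vec (P + Q)) ∧ Par (L2 a b (vec P) (vec Q)) (vec (P + Q)) := by
  obtain ⟨c, _, hc, h⟩ := vec_spec P
  obtain ⟨c', _, hc', h'⟩ := vec_spec Q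
  obtain ⟨c'', _, hc'', h''⟩ := vec_spec (P + Q)
  obtain ⟨⟨u1, u2, u3⟩, ⟨w1, w2, w3⟩⟩ := par_add P Q
  have e0 : ((L1 a b (vec P) (vec Q) 0 : ℤ) : ℚ) =
      (c * c') ^ 2 * L1 (a : ℚ) (b : ℚ) (rep P) (rep Q) 0 := by
    rw [L1_zero, L1_zero]
    push_cast
    rw [h 0, h 1, h 2, h' 0, h' 1, h' 2]
    ring
  have e1 : ((L1 a b (vec P) (vec Q) 1 : ℤ) : ℚ) =
      (c * c') ^ 2 * L1 (a : ℚ) (b : ℚ) (rep P) (rep Q) 1 := by
    rw [L1_one, L1_one]
    push_cast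
    rw [h 0, h 1, h 2, h' 0, h' 1, h' 2]
    ring
  have e2 : ((L1 a b (vec P) (vec Q) 2 : ℤ) : ℚ) =
      (c * c') ^ 2 * L1 (a : ℚ) (b : ℚ) (rep P) (rep Q) 2 := by
    rw [L1_two, L1_two]
    push_cast
    rw [h 0, h 1, h 2, h' 0, h' 1, h' 2]
    ring
  have f0 : ((L2 a b (vec P) (vec Q) 0 : ℤ) : ℚ) =
      (c * c') ^ 2 * L2 (a : ℚ) (b : ℚ) (rep P) (rep Q) 0 := by
    rw [L2_zero, L2_zero]
    push_cast
    rw [h 0, h 1, h 2, h' 0, h' 1, h' 2]
    ring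
  have f1 : ((L2 a b (vec P) (vec Q) 1 : ℤ) : ℚ) =
      (c * c') ^ 2 * L2 (a : ℚ) (b : ℚ) (rep P) (rep Q) 1 := by
    rw [L2_one, L2_one]
    push_cast
    rw [h 0, h 1, h 2, h' 0, h' 1, h' 2]
    ring
  have f2 : ((L2 a b (vec P) (vec Q) 2 : ℤ) : ℚ) =
      (c * c') ^ 2 * L2 (a : ℚ) (b : ℚ) (rep P) (rep Q) 2 := by
    rw [L2_two, L2_two]
    push_cast
    rw [h 0, h 1, h 2, h' 0, h' 1, h' 2]
    ring
  have key : ∀ (A B : ℤ) (i j : Fin 3) (A' B' : ℚ), (A : ℚ) = (c * c') ^ 2 * A' →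
      (B : ℚ) = (c * c') ^ 2 * B' → A' * rep (P + Q) j = B' * rep (P + Q) i →
      A * vec (P + Q) j = B * vec (P + Q) i := by
    intro A B i j A' B' hA hB hAB
    have h1 : ((A * vec (P + Q) j : ℤ) : ℚ) = ((B * vec (P + Q) i : ℤ) : ℚ) := by
      push_cast
      rw [hA, hB, h'' i, h'' j]
      linear_combination (c * c') ^ 2 * c'' * hAB
    exact_mod_cast h1
  exact ⟨⟨key _ _ 0 1 _ _ e0 e1 u1, key _ _ 0 2 _ _ e0 e2 u2, key _ _ 1 2 _ _ e1 e2 u3⟩,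
    ⟨key _ _ 0 1 _ _ f0 f1 w1, key _ _ 0 2 _ _ f0 f2 w2, key _ _ 1 2 _ _ f1 f2 w3⟩⟩

/-- congruent points of the projective plane modulo `d` -/
def Cong (d : ℕ) (V V' : Fin 3 → ℤ) : Prop := ∀ i j, (d : ℤ) ∣ V i * V' j - V j * V' i

/-- a lemma on commutative rings -/
theorem kill {R : Type} [CommRing R] (A B p0 p1 p2 w0 w1 w2 m : R)
    (he : p1 ^ 2 * p2 = p0 ^ 3 + A * p0 * p2 ^ 2 + B * p2 ^ 3)
    (hw : p0 * w0 + p1 * w1 + p2 * w2 = 1) (h1 : p1 * m = 0) (h2 : p2 * m = 0) : m = 0 := by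
  have h0 : p0 ^ 3 * m = 0 := by
    linear_combination (-m) * he + (p1 ^ 2 - A * p0 * p2 - B * p2 ^ 2) * h2
  have h3 : (p0 * w0 + p1 * w1 + p2 * w2) ^ 3 * m = 0 := by
    linear_combination w0 ^ 3 * h0 + (3 * p0 ^ 2 * w0 ^ 2 + 3 * p0 * w0 * (p1 * w1 + p2 * w2) +
      (p1 * w1 + p2 * w2) ^ 2) * (w1 * h1 + w2 * h2)
  rw [hw, one_pow, one_mul] at h3
  exact h3

/-- translations by points near the origin -/
theorem cong_add (d : ℕ) (P Q : Pt (a : ℚ) (b : ℚ)) (h0 : (d : ℤ) ∣ vec Q 0)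
    (h2 : (d : ℤ) ∣ vec Q 2) : Cong d (vec P) (vec (P + Q)) := by
  obtain ⟨⟨u1, u2, u3⟩, ⟨w1, w2, w3⟩⟩ := par_vec P Q
  obtain ⟨W, hW⟩ := vec_prim P
  obtain ⟨W', hW'⟩ := vec_prim Q
  have hE := vec_eqn P
  set ι : ℤ →+* ZMod d := Int.castRingHom (ZMod d) with hι
  have z0 : ι (vec Q 0) = 0 := (ZMod.intCast_zmod_eq_zero_iff_dvd _ _).2 h0
  have z2 : ι (vec Q 2) = 0 := (ZMod.intCast_zmod_eq_zero_iff_dvd _ _).2 h2
  rw [Fin.sum_univ_three] at hW hW'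
  have hq : ι (vec Q 1) * ι (W' 1) = 1 := by
    have h := congrArg ι hW'
    rw [map_add, map_add, map_mul, map_mul, map_mul, z0, z2, map_one] at h
    linear_combination h
  have hp := congrArg ι hW
  have hE' := congrArg ι hE
  simp only [map_add, map_mul, map_pow, map_one] at hp hE'
  -- the laws modulo `d`
  have a0 : ι (L1 a b (vec P) (vec Q) 0) = ι (vec Q 1) ^ 2 * ι (vec P 2) * ι (vec P 0) := by
    rw [L1_zero]
    simp only [map_add, map_sub, map_mul, map_pow, map_ofNat, z0, z2]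
    ring
  have a1 : ι (L1 a b (vec P) (vec Q) 1) = ι (vec Q 1) ^ 2 * ι (vec P 2) * ι (vec P 1) := by
    rw [L1_one]
    simp only [map_add, map_sub, map_mul, map_pow, map_ofNat, map_neg, z0, z2]
    ring
  have a2 : ι (L1 a b (vec P) (vec Q) 2) = ι (vec Q 1) ^ 2 * ι (vec P 2) * ι (vec P 2) := by
    rw [L1_two]
    simp only [map_add, map_sub, map_mul, map_pow, map_ofNat, z0, z2]
    ring
  have b0 : ι (L2 a b (vec P) (vec Q) 0) = ι (vec Q 1) ^ 2 * ι (vec P 1) * ι (vec P 0) := by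
    rw [L2_zero]
    simp only [map_add, map_sub, map_mul, map_pow, map_ofNat, z0, z2]
    ring
  have b1 : ι (L2 a b (vec P) (vec Q) 1) = ι (vec Q 1) ^ 2 * ι (vec P 1) * ι (vec P 1) := by
    rw [L2_one]
    simp only [map_add, map_sub, map_mul, map_pow, map_ofNat, z0, z2]
    ring
  have b2 : ι (L2 a b (vec P) (vec Q) 2) = ι (vec Q 1) ^ 2 * ι (vec P 1) * ι (vec P 2) := by
    rw [L2_two]
    simp only [map_add, map_sub, map_mul, map_pow, map_ofNat, z0, z2]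
    ring
  have key : ∀ i j : Fin 3, ι (L1 a b (vec P) (vec Q) i) = ι (vec Q 1) ^ 2 * ι (vec P 2) * ι (vec P i) →
      ι (L1 a b (vec P) (vec Q) j) = ι (vec Q 1) ^ 2 * ι (vec P 2) * ι (vec P j) →
      ι (L2 a b (vec P) (vec Q) i) = ι (vec Q 1) ^ 2 * ι (vec P 1) * ι (vec P i) →
      ι (L2 a b (vec P) (vec Q) j) = ι (vec Q 1) ^ 2 * ι (vec P 1) * ι (vec P j) →
      L1 a b (vec P) (vec Q) i * vec (P + Q) j = L1 a b (vec P) (vec Q) j * vec (P + Q) i →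
      L2 a b (vec P) (vec Q) i * vec (P + Q) j = L2 a b (vec P) (vec Q) j * vec (P + Q) i →
      (d : ℤ) ∣ vec P i * vec (P + Q) j - vec P j * vec (P + Q) i := by
    intro i j p1 p2 p3 p4 p5 p6
    rw [← ZMod.intCast_zmod_eq_zero_iff_dvd]
    change ι _ = 0
    have e5 := congrArg ι p5
    have e6 := congrArg ι p6
    rw [map_mul, map_mul, p1, p2] at e5
    rw [map_mul, map_mul, p3, p4] at e6
    refine kill (ι a) (ι b) (ι (vec P 0)) (ι (vec P 1)) (ι (vec P 2)) (ι (W 0)) (ι (W 1)) (ι (W 2))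
      _ hE' hp ?_ ?_
    · rw [map_sub, map_mul, map_mul]
      linear_combination (ι (W' 1)) ^ 2 * e6 - ((ι (vec Q 1)) * ι (W' 1) + 1) * (ι (vec P 1) *
        (ι (vec P i) * ι (vec (P + Q) j) - ι (vec P j) * ι (vec (P + Q) i))) * hq
    · rw [map_sub, map_mul, map_mul]
      linear_combination (ι (W' 1)) ^ 2 * e5 - ((ι (vec Q 1)) * ι (W' 1) + 1) * (ι (vec P 2) *
        (ι (vec P i) * ι (vec (P + Q) j) - ι (vec P j) * ι (vec (P + Q) i))) * hq
  have k01 := key 0 1 a0 a1 b0 b1 u1 w1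
  have k02 := key 0 2 a0 a2 b0 b2 u2 w2
  have k12 := key 1 2 a1 a2 b1 b2 u3 w3
  intro i j
  fin_cases i <;> fin_cases j
  · exact ⟨0, by ring⟩
  · exact k01
  · exact k02
  · show (d : ℤ) ∣ vec P 1 * vec (P + Q) 0 - vec P 0 * vec (P + Q) 1
    obtain ⟨z, hz⟩ := k01
    exact ⟨-z, by linear_combination -hz⟩
  · exact ⟨0, by ring⟩
  · exact k12
  · show (d : ℤ) ∣ vec P 2 * vec (P + Q) 0 - vec P 0 * vec (P + Q) 2
    obtain ⟨z, hz⟩ := k02
    exact ⟨-z, by linear_combination -hz⟩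
  · show (d : ℤ) ∣ vec P 2 * vec (P + Q) 1 - vec P 1 * vec (P + Q) 2
    obtain ⟨z, hz⟩ := k12
    exact ⟨-z, by linear_combination -hz⟩
  · exact ⟨0, by ring⟩

theorem Cong.refl (d : ℕ) (V : Fin 3 → ℤ) : Cong d V V := fun i j => ⟨0, by ring⟩

theorem Cong.symm {d : ℕ} {V V' : Fin 3 → ℤ} (h : Cong d V V') : Cong d V' V := by
  intro i j
  obtain ⟨z, hz⟩ := h i j
  exact ⟨-z, by linear_combination -hz⟩

theorem mul_near (d : ℕ) (Q : Pt (a : ℚ) (b : ℚ)) (h0 : (d : ℤ) ∣ vec Q 0)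
    (h2 : (d : ℤ) ∣ vec Q 2) (m : ℕ) : (d : ℤ) ∣ vec (m • Q) 0 ∧ (d : ℤ) ∣ vec (m • Q) 2 := by
  induction m with
  | zero =>
    rw [zero_nsmul]
    obtain ⟨c, _, hc, h⟩ := vec_spec (0 : Pt (a : ℚ) (b : ℚ))
    have e0 : vec (0 : Pt (a : ℚ) (b : ℚ)) 0 = 0 := by
      have h3 := h 0
      rw [rep_zero_pt] at h3
      simp only [Matrix.cons_val_zero, mul_zero] at h3
      exact_mod_cast h3
    have e2 : vec (0 : Pt (a : ℚ) (b : ℚ)) 2 = 0 := by
      have h3 := h 2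
      rw [rep_zero_pt] at h3
      simp only [Matrix.cons_val, mul_zero] at h3
      exact_mod_cast h3
    rw [e0, e2]
    exact ⟨dvd_zero _, dvd_zero _⟩
  | succ m ih =>
    obtain ⟨i0, i2⟩ := ih
    rw [succ_nsmul]
    have hc := cong_add d (m • Q) Q h0 h2
    obtain ⟨W, hW⟩ := vec_prim (m • Q)
    rw [Fin.sum_univ_three] at hW
    obtain ⟨s0, hs0⟩ := i0
    obtain ⟨s2, hs2⟩ := i2
    obtain ⟨t0, ht0⟩ := hc 1 0
    obtain ⟨t2, ht2⟩ := hc 1 2
    constructor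
    · refine ⟨W 1 * t0 + W 1 * s0 * vec (m • Q + Q) 1 + s0 * W 0 * vec (m • Q + Q) 0 +
        s2 * W 2 * vec (m • Q + Q) 0, ?_⟩
      linear_combination (-vec (m • Q + Q) 0) * hW + W 1 * ht0 +
        (W 0 * vec (m • Q + Q) 0 + W 1 * vec (m • Q + Q) 1) * hs0 + W 2 * vec (m • Q + Q) 0 * hs2
    · refine ⟨W 1 * t2 + W 1 * s2 * vec (m • Q + Q) 1 + s0 * W 0 * vec (m • Q + Q) 2 +
        s2 * W 2 * vec (m • Q + Q) 2, ?_⟩
      linear_combination (-vec (m • Q + Q) 2) * hW + W 1 * ht2 +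
        W 0 * vec (m • Q + Q) 2 * hs0 + (W 1 * vec (m • Q + Q) 1 + W 2 * vec (m • Q + Q) 2) * hs2

/-- points that differ by a multiple of `Q` are congruent -/
theorem cong_mul (d : ℕ) (Q : Pt (a : ℚ) (b : ℚ)) (h0 : (d : ℤ) ∣ vec Q 0)
    (h2 : (d : ℤ) ∣ vec Q 2) (P P' : Pt (a : ℚ) (b : ℚ)) (m : ℤ) (h : P' = P + m • Q) :
    Cong d (vec P) (vec P') := by
  rcases Int.eq_nat_or_neg m with ⟨k, hk | hk⟩
  · obtain ⟨k0, k2⟩ := mul_near d Q h0 h2 k
    rw [h, hk, natCast_zsmul]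
    exact cong_add d P _ k0 k2
  · obtain ⟨k0, k2⟩ := mul_near d Q h0 h2 k
    have h3 : P = P' + k • Q := by
      rw [h, hk, neg_zsmul, natCast_zsmul]
      abel
    rw [h3]
    exact (cong_add d P' _ k0 k2).symm

end Pool.Agent.Y213.R1
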