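import Pool.Agent.Y213.R1.Null
import Pool.Agent.Y213.R1.Cong
import Pool.Agent.Y213.EC.Geo

/-! Divisibility certificates for closed subvarieties of `E ^ g × ℙ ^ n`. -/

set_option autoImplicit false

namespace Pool.Agent.Y213.R1

open MvPolynomial Pool.Agent.Y213.EC

/-- the value of an integral polynomial -/
noncomputable def ev {σ R : Type} [CommRing R] (z : σ → R) (p : MvPolynomial σ ℤ) : R :=
  eval₂ (Int.castRingHom R) z p

theorem ev_map {σ R S : Type} [CommRing R] [CommRing S] (ψ : R →+* S) (z : σ → R)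
    (p : MvPolynomial σ ℤ) : ψ (ev z p) = ev (fun i => ψ (z i)) p := by
  unfold ev
  rw [hom_eval₂]
  congr 1
  exact Subsingleton.elim _ _

theorem ev_cast {σ R : Type} [CommRing R] (z : σ → ℤ) (p : MvPolynomial σ ℤ) :
    ((ev z p : ℤ) : R) = ev (fun i => (z i : R)) p := ev_map (Int.castRingHom R) z p

theorem aeval_eq_ev {σ R : Type} [CommRing R] (z : σ → R) (p : MvPolynomial σ ℤ) :
    aeval z p = ev z p := by
  unfold ev
  rw [aeval_def]
  congr 1

theorem vl_cast {R : Type} [CommRing R] {g n : ℕ} (F : Pol ℤ g n) (V : Fin g → Fin 3 → ℤ)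
    (t : Fin n → ℤ) : ((vl (Int.castRingHom ℤ) F V t : ℤ) : R) =
      vl (Int.castRingHom R) F (fun i j => (V i j : R)) (fun i => (t i : R)) := by
  have h := vl_map (Int.castRingHom ℤ) (Int.castRingHom R) F V t
  have h2 : (Int.castRingHom R).comp (Int.castRingHom ℤ) = Int.castRingHom R :=
    Subsingleton.elim _ _
  rw [h2] at h
  exact h

section cert

variable (g s n : ℕ) (κ : Type)

/-- the variables of the certificate -/
abbrev Var : Type := ((Fin g × Fin 3) ⊕ (Fin g × Fin 3)) ⊕ ((Fin s × Fin n) ⊕ κ)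

variable {g s n κ}

theorem cert (a b : ℤ) {q : ℕ} [Finite κ] (G : Fin q → Pol ℤ g n)
    (μ : MvPolynomial ((Fin s × Fin n) ⊕ κ) ℤ)
    (h : ∀ V : Fin g → Fin 3 → ℂ, (∀ i, V i ≠ 0 ∧
        V i 1 ^ 2 * V i 2 = V i 0 ^ 3 + a * V i 0 * V i 2 ^ 2 + b * V i 2 ^ 3) →
      ∀ (y : Fin s → Fin n → ℂ) (c : κ → ℂ),
        (∀ l e, vl (Int.castRingHom ℂ) (G e) V (y l) = 0) →
        ev (Sum.elim (fun l : Fin s × Fin n => y l.1 l.2) c) μ = 0) :
    ∃ (N : ℤ) (K : ℕ), N ≠ 0 ∧ ∀ (d : ℕ) (v : Fin g → Fin 3 → ℤ), (∀ i, Prim (v i)) →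
      (∀ i, v i 1 ^ 2 * v i 2 = v i 0 ^ 3 + a * v i 0 * v i 2 ^ 2 + b * v i 2 ^ 3) →
      ∀ (x : Fin s → Fin n → ℤ) (c : κ → ℤ),
        (∀ l e, (d : ℤ) ∣ vl (Int.castRingHom ℤ) (G e) v (x l)) →
        (d : ℤ) ∣ N * ev (Sum.elim (fun l : Fin s × Fin n => x l.1 l.2) c) μ ^ K := by
  classical
  -- generic point
  let VV : Fin g → Fin 3 → MvPolynomial (Var g s n κ) ℤ := fun i j => X (Sum.inl (Sum.inl (i, j)))
  let WW : Fin g → Fin 3 → MvPolynomial (Var g s n κ) ℤ := fun i j => X (Sum.inl (Sum.inr (i, j)))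
  let YY : Fin s → Fin n → MvPolynomial (Var g s n κ) ℤ := fun l j => X (Sum.inr (Sum.inl (l, j)))
  let CC : κ → MvPolynomial (Var g s n κ) ℤ := fun k => X (Sum.inr (Sum.inr k))
  let g1 : Fin g → MvPolynomial (Var g s n κ) ℤ := fun i =>
    VV i 1 ^ 2 * VV i 2 - (VV i 0 ^ 3 + C a * VV i 0 * VV i 2 ^ 2 + C b * VV i 2 ^ 3)
  let g2 : Fin g → MvPolynomial (Var g s n κ) ℤ := fun i => ∑ j, VV i j * WW i j - 1
  let g3 : Fin s × Fin q → MvPolynomial (Var g s n κ) ℤ := fun le => vl C (G le.2) VV (YY le.1)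
  let I : Ideal (MvPolynomial (Var g s n κ) ℤ) :=
    Ideal.span (Set.range g1 ∪ Set.range g2 ∪ Set.range g3)
  let μ' : MvPolynomial (Var g s n κ) ℤ := ev (Sum.elim (fun l : Fin s × Fin n => YY l.1 l.2) CC) μ
  -- evaluation of the generators
  have e0 : ∀ (R : Type) [CommRing R] (z : Var g s n κ → R) (x : Var g s n κ),
      ev z (X x : MvPolynomial (Var g s n κ) ℤ) = z x := by
    intro R _ z x
    unfold ev
    rw [eval₂_X]
  have e1 : ∀ (R : Type) [CommRing R] (z : Var g s n κ → R) (i : Fin g),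
      ev z (g1 i) = z (Sum.inl (Sum.inl (i, 1))) ^ 2 * z (Sum.inl (Sum.inl (i, 2))) -
        (z (Sum.inl (Sum.inl (i, 0))) ^ 3 +
        a * z (Sum.inl (Sum.inl (i, 0))) * z (Sum.inl (Sum.inl (i, 2))) ^ 2 +
        b * z (Sum.inl (Sum.inl (i, 2))) ^ 3) := by
    intro R _ z i
    simp only [g1, VV, ev, eval₂_sub, eval₂_add, eval₂_mul, eval₂_pow, eval₂_X, eval₂_C]
    simp only [eq_intCast]
  have e2 : ∀ (R : Type) [CommRing R] (z : Var g s n κ → R) (i : Fin g),
      ev z (g2 i) = ∑ j, z (Sum.inl (Sum.inl (i, j))) * z (Sum.inl (Sum.inr (i, j))) - 1 := by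
    intro R _ z i
    simp only [g2, VV, WW, ev, eval₂_sub, eval₂_sum, eval₂_mul, eval₂_X, eval₂_one]
  have e3 : ∀ (R : Type) [CommRing R] (z : Var g s n κ → R) (le : Fin s × Fin q),
      ev z (g3 le) = vl (Int.castRingHom R) (G le.2) (fun i j => z (Sum.inl (Sum.inl (i, j))))
        (fun j => z (Sum.inr (Sum.inl (le.1, j)))) := by
    intro R _ z le
    have h1 : ev z (g3 le) = eval₂Hom (Int.castRingHom R) z (g3 le) := rfl
    rw [h1]
    simp only [g3]
    rw [vl_map]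
    have h2 : (eval₂Hom (Int.castRingHom R) z).comp (C : ℤ →+* MvPolynomial (Var g s n κ) ℤ) =
        Int.castRingHom R := Subsingleton.elim _ _
    rw [h2]
    congr 1
    · funext i j
      exact eval₂_X _ _ _
    · funext j
      exact eval₂_X _ _ _
  have e4 : ∀ (R : Type) [CommRing R] (z : Var g s n κ → R),
      ev z μ' = ev (Sum.elim (fun l : Fin s × Fin n => z (Sum.inr (Sum.inl l)))
        (fun k => z (Sum.inr (Sum.inr k)))) μ := by
    intro R _ z
    have h1 : ev z μ' = eval₂Hom (Int.castRingHom R) z μ' := rfl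
    rw [h1]
    simp only [μ']
    rw [ev_map]
    congr 1
    funext x
    rcases x with l | k
    · exact eval₂_X _ _ _
    · exact eval₂_X _ _ _
  obtain ⟨N, K, hN, hI⟩ := null I μ' (by
    intro z hz
    have hz' : ∀ f ∈ I, ev z f = 0 := fun f hf => by rw [← aeval_eq_ev]; exact hz f hf
    rw [aeval_eq_ev, e4]
    refine h (fun i j => z (Sum.inl (Sum.inl (i, j)))) (fun i => ⟨?_, ?_⟩)
      (fun l j => z (Sum.inr (Sum.inl (l, j)))) _ ?_
    · intro h0
      have h1 := hz' (g2 i) (Ideal.subset_span (Or.inl (Or.inr ⟨i, rfl⟩)))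
      rw [e2] at h1
      have h2 : ∀ j, z (Sum.inl (Sum.inl (i, j))) = 0 := fun j => congrFun h0 j
      simp only [h2, zero_mul, Finset.sum_const_zero, zero_sub, neg_eq_zero, one_ne_zero] at h1
    · have h1 := hz' (g1 i) (Ideal.subset_span (Or.inl (Or.inl ⟨i, rfl⟩)))
      rw [e1] at h1
      exact sub_eq_zero.1 h1
    · intro l e
      have h1 := hz' (g3 (l, e)) (Ideal.subset_span (Or.inr ⟨(l, e), rfl⟩))
      rw [e3] at h1
      exact h1)
  refine ⟨N, K, hN, ?_⟩
  intro d v hv hE x c hG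
  choose w hw using hv
  let z : Var g s n κ → ZMod d := Sum.elim
    (Sum.elim (fun ij => ((v ij.1 ij.2 : ℤ) : ZMod d)) (fun ij => ((w ij.1 ij.2 : ℤ) : ZMod d)))
    (Sum.elim (fun l => ((x l.1 l.2 : ℤ) : ZMod d)) (fun k => ((c k : ℤ) : ZMod d)))
  have hker : I ≤ RingHom.ker (eval₂Hom (Int.castRingHom (ZMod d)) z) := by
    refine Ideal.span_le.2 ?_
    rintro f ((⟨i, rfl⟩ | ⟨i, rfl⟩) | ⟨le, rfl⟩)
    · change ev z (g1 i) = 0
      rw [e1]
      have h1 := congrArg (fun m : ℤ => (m : ZMod d)) (hE i)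
      simp only [z, Sum.elim_inl]
      push_cast at h1
      rw [h1]
      ring
    · change ev z (g2 i) = 0
      rw [e2]
      have h1 := congrArg (fun m : ℤ => (m : ZMod d)) (hw i)
      simp only [z, Sum.elim_inl, Sum.elim_inr]
      push_cast at h1
      rw [h1]
      ring
    · change ev z (g3 le) = 0
      rw [e3]
      simp only [z, Sum.elim_inl, Sum.elim_inr]
      rw [← vl_cast]
      exact (ZMod.intCast_zmod_eq_zero_iff_dvd _ _).2 (hG le.1 le.2)
  have h1 : eval₂Hom (Int.castRingHom (ZMod d)) z (C N * μ' ^ K) = 0 := hker hI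
  rw [map_mul, map_pow] at h1
  have h2 : eval₂Hom (Int.castRingHom (ZMod d)) z (C N) = ((N : ℤ) : ZMod d) := by
    simp
  have h3 : eval₂Hom (Int.castRingHom (ZMod d)) z μ' =
      ((ev (Sum.elim (fun l : Fin s × Fin n => x l.1 l.2) c) μ : ℤ) : ZMod d) := by
    rw [ev_cast]
    change ev z μ' = _
    rw [e4]
    congr 1
    funext y
    rcases y with l | k <;> rfl
  rw [h2, h3] at h1
  rw [← ZMod.intCast_zmod_eq_zero_iff_dvd]
  push_cast
  exact h1

end cert

/-- transfer of the equations to congruent points -/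
theorem transfer {g n : ℕ} (F : Pol ℤ g n) (e : Fin g → ℕ) (hF : MHomog F e) (d : ℕ)
    (V V' : Fin g → Fin 3 → ℤ) (hV' : ∀ i, Prim (V' i)) (hc : ∀ i, Cong d (V i) (V' i))
    (x : Fin n → ℤ) (h0 : vl (Int.castRingHom ℤ) F V' x = 0) :
    (d : ℤ) ∣ vl (Int.castRingHom ℤ) F V x := by
  choose w hw using hV'
  rw [← ZMod.intCast_zmod_eq_zero_iff_dvd]
  have h1 : ∀ i j, ((V i j : ℤ) : ZMod d) =
      ((∑ k, V i k * w i k : ℤ) : ZMod d) * ((V' i j : ℤ) : ZMod d) := by
    intro i j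
    have h2 : ((V i j - (∑ k, V i k * w i k) * V' i j : ℤ) : ZMod d) = 0 := by
      rw [ZMod.intCast_zmod_eq_zero_iff_dvd]
      have h3 : V i j - (∑ k, V i k * w i k) * V' i j =
          ∑ k, w i k * (V i j * V' i k - V i k * V' i j) := by
        have h4 : V i j = V i j * ∑ k, V' i k * w i k := by rw [hw i, mul_one]
        conv_lhs => rw [h4]
        rw [Finset.mul_sum, Finset.sum_mul, ← Finset.sum_sub_distrib]
        refine Finset.sum_congr rfl fun k _ => ?_
        ring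
      rw [h3]
      exact Finset.dvd_sum fun k _ => Dvd.dvd.mul_left (hc i j k) _
    push_cast at h2 ⊢
    exact sub_eq_zero.1 h2
  rw [vl_cast]
  have h2 : (fun i j => ((V i j : ℤ) : ZMod d)) = fun i j =>
      ((∑ k, V i k * w i k : ℤ) : ZMod d) * ((V' i j : ℤ) : ZMod d) := by
    funext i j
    exact h1 i j
  rw [h2, vl_scale _ F e hF, ← vl_cast, h0, Int.cast_zero, mul_zero]

end Pool.Agent.Y213.R1
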