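import Pool.Agent.Y213.R1.Growth2
import Pool.Agent.H901R3.MS.P_M1

/-! Rank at most one: all rational points lie in `O(√L)` classes, each of which is congruent to one
point modulo an integer `d ≥ exp L`. -/

set_option autoImplicit false

namespace Pool.Agent.Y213.R1

open WeierstrassCurve Pool.Agent.H901R3.MS

/-- finitely generated abelian groups of rank at most one -/
theorem group_case (G : Type) [AddCommGroup G] [AddGroup.FG G]
    (hr : ∀ Q R : G, ∃ m n : ℤ, (m ≠ 0 ∨ n ≠ 0) ∧ m • Q + n • R = 0) :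
    Finite G ∨ ∃ P₀ : G, (∀ n : ℕ, n ≠ 0 → n • P₀ ≠ 0) ∧ ∃ (N : ℕ) (cls : G → Fin N),
      ∀ M : ℕ, ∃ r : G → ZMod M, ∀ P P', cls P = cls P' → r P = r P' →
        ∃ t : ℤ, P' = P + t • (M • P₀) := by
  classical
  by_cases h : ∀ P : G, ∃ n : ℕ, n ≠ 0 ∧ n • P = 0
  · left
    refine AddCommGroup.finite_of_fg_isAddTorsion G ?_
    intro P
    obtain ⟨n, hn, hP⟩ := h P
    exact isOfFinAddOrder_iff_nsmul_eq_zero.2 ⟨n, Nat.pos_of_ne_zero hn, hP⟩
  · right
    push Not at h
    obtain ⟨P₀, hP₀⟩ := h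
    refine ⟨P₀, hP₀, ?_⟩
    set S : AddSubgroup G := AddSubgroup.zmultiples P₀ with hS
    have hfg : AddGroup.FG (G ⧸ S) := inferInstance
    have hfin : Finite (G ⧸ S) := by
      refine AddCommGroup.finite_of_fg_isAddTorsion (G ⧸ S) ?_
      intro R'
      obtain ⟨R, rfl⟩ := QuotientAddGroup.mk_surjective R'
      obtain ⟨m, n, hmn, hR⟩ := hr P₀ R
      have hn : n ≠ 0 := by
        intro hn
        rw [hn, zero_smul, add_zero] at hR
        have hm : m ≠ 0 := by
          rcases hmn with h | h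
          · exact h
          · exact absurd hn h
        refine hP₀ m.natAbs (Int.natAbs_ne_zero.2 hm) ?_
        rcases Int.natAbs_eq m with h | h
        · rw [h, natCast_zsmul] at hR
          exact hR
        · rw [h, neg_smul, natCast_zsmul, neg_eq_zero] at hR
          exact hR
      refine isOfFinAddOrder_iff_zsmul_eq_zero.2 ⟨n, hn, ?_⟩
      rw [← QuotientAddGroup.mk_zsmul]
      refine (QuotientAddGroup.eq_zero_iff _).2 ?_
      refine AddSubgroup.mem_zmultiples_iff.2 ⟨-m, ?_⟩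
      rw [neg_smul]
      exact (eq_neg_of_add_eq_zero_right hR).symm
    obtain ⟨N, ⟨e⟩⟩ := Finite.exists_equiv_fin (G ⧸ S)
    refine ⟨N, fun P => e (QuotientAddGroup.mk P), fun M => ?_⟩
    -- representatives
    have hex : ∀ P : G, ∃ m : ℤ, P = Quotient.out (QuotientAddGroup.mk P : G ⧸ S) + m • P₀ := by
      intro P
      have h1 : (QuotientAddGroup.mk (Quotient.out (QuotientAddGroup.mk P : G ⧸ S)) : G ⧸ S) =
          QuotientAddGroup.mk P := Quotient.out_eq' _
      rw [QuotientAddGroup.eq] at h1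
      obtain ⟨m, hm⟩ := AddSubgroup.mem_zmultiples_iff.1 h1
      refine ⟨m, ?_⟩
      rw [hm]
      abel
    choose m hm using hex
    refine ⟨fun P => (m P : ZMod M), fun P P' h1 h2 => ?_⟩
    have h3 : (QuotientAddGroup.mk P : G ⧸ S) = QuotientAddGroup.mk P' := e.injective h1
    have h4 := (ZMod.intCast_eq_intCast_iff_dvd_sub _ _ _).1 h2
    obtain ⟨t, ht⟩ := h4
    refine ⟨t, ?_⟩
    rw [hm P', ← h3]
    conv_rhs => rw [hm P]
    rw [add_assoc]
    congr 1
    have h5 : m P' = m P + t * M := by linear_combination ht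
    rw [h5, add_smul, mul_smul, natCast_zsmul]

variable {a b : ℤ}

/-- the classes -/
theorem classes (hΔ : 4 * a ^ 3 + 27 * b ^ 2 ≠ 0)
    (hr : ∀ Q R : Pt (a : ℚ) (b : ℚ), ∃ m n : ℤ, (m ≠ 0 ∨ n ≠ 0) ∧ m • Q + n • R = 0) :
    ∃ C : ℝ, 0 < C ∧ ∀ L : ℝ, 1 ≤ L → ∃ (N d : ℕ) (cls : Pt (a : ℚ) (b : ℚ) → Fin N),
      (N : ℝ) ≤ C * Real.sqrt L ∧ Real.exp L ≤ d ∧
      ∀ P P', cls P = cls P' → Cong d (vec P) (vec P') := by
  classical
  have hD : Disc (a : ℚ) (b : ℚ) := by
    unfold Disc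
    refine mul_ne_zero two_ne_zero ?_
    exact_mod_cast hΔ
  have hfg : AddGroup.FG (Pt (a : ℚ) (b : ℚ)) := t_M1 a b hD
  rcases group_case (Pt (a : ℚ) (b : ℚ)) hr with hfin | ⟨P₀, hP₀, N, cls, hcls⟩
  · obtain ⟨N, ⟨e⟩⟩ := Finite.exists_equiv_fin (Pt (a : ℚ) (b : ℚ))
    refine ⟨N + 1, by positivity, fun L hL => ⟨N, ⌈Real.exp L⌉₊, e, ?_, Nat.le_ceil _, ?_⟩⟩
    · have h1 : 1 ≤ Real.sqrt L := Real.one_le_sqrt.2 hL
      nlinarith [(Nat.cast_nonneg N : (0 : ℝ) ≤ N)]
    · intro P P' h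
      rw [e.injective h]
      exact Cong.refl _ _
  · obtain ⟨j₀, c, hc, hgr⟩ := growth hΔ P₀ hP₀
    set A : ℝ := 2 + |Real.log c| with hA
    have hA0 : 1 ≤ A := by
      have := abs_nonneg (Real.log c)
      linarith
    refine ⟨N * 2 ^ (j₀ + 1) * (2 * Real.sqrt A) + 1, by positivity, fun L hL => ?_⟩
    have hAL : 1 ≤ A * L := by nlinarith
    obtain ⟨i, hi1, hi2⟩ := exists_nat_pow_near hAL (by norm_num : (1 : ℝ) < 4)
    set M : ℕ := 2 ^ (j₀ + (i + 1) + 1) with hM
    obtain ⟨r, hr'⟩ := hcls M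
    have hM0 : NeZero M := ⟨by rw [hM]; positivity⟩
    have hdvd := dn_dvd (M • P₀)
    have hg := hgr (i + 1)
    rw [← hM] at hg
    refine ⟨N * M, dn (M • P₀), fun P => finProdFinEquiv (cls P, (ZMod.finEquiv M).symm (r P)),
      ?_, ?_, ?_⟩
    · -- the number of classes
      have h1 : (2 : ℝ) ^ (i + 1) ≤ 2 * Real.sqrt A * Real.sqrt L := by
        have h2 : (2 : ℝ) ^ i ≤ Real.sqrt A * Real.sqrt L := by
          rw [← Real.sqrt_mul (by linarith)]
          refine Real.le_sqrt_of_sq_le ?_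
          rw [← pow_mul, mul_comm i 2, pow_mul]
          norm_num
          exact hi1
        rw [pow_succ]
        linarith
      have h3 : ((N * M : ℕ) : ℝ) = N * 2 ^ (j₀ + 1) * 2 ^ (i + 1) := by
        rw [hM]
        push_cast
        rw [show j₀ + (i + 1) + 1 = (j₀ + 1) + (i + 1) by ring, pow_add]
        ring
      rw [h3]
      have h4 : 0 ≤ Real.sqrt L := Real.sqrt_nonneg _
      calc (N : ℝ) * 2 ^ (j₀ + 1) * 2 ^ (i + 1) ≤
          N * 2 ^ (j₀ + 1) * (2 * Real.sqrt A * Real.sqrt L) := by gcongr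
        _ ≤ (N * 2 ^ (j₀ + 1) * (2 * Real.sqrt A) + 1) * Real.sqrt L := by nlinarith
    · -- the size of the modulus
      have h1 : Real.exp (2 * L) * c ≤ Real.exp (4 ^ (i + 1)) := by
        have h2 : c ≤ Real.exp |Real.log c| := by
          calc c = Real.exp (Real.log c) := (Real.exp_log hc).symm
            _ ≤ _ := Real.exp_le_exp.2 (le_abs_self _)
        calc Real.exp (2 * L) * c ≤ Real.exp (2 * L) * Real.exp |Real.log c| := by gcongr
          _ = Real.exp (2 * L + |Real.log c|) := by rw [Real.exp_add]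
          _ ≤ Real.exp (4 ^ (i + 1)) := by
            refine Real.exp_le_exp.2 (le_trans ?_ hi2.le)
            rw [hA]
            nlinarith [abs_nonneg (Real.log c)]
      have h3 : Real.exp (2 * L) * c ≤ ((dn (M • P₀) : ℕ) : ℝ) ^ 2 * c := by linarith
      have h4 := le_of_mul_le_mul_right h3 hc
      have h5 : Real.exp (2 * L) = Real.exp L ^ 2 := by
        rw [← Real.exp_nat_mul]
        norm_num
      rw [h5] at h4
      exact le_of_sq_le_sq h4 (Nat.cast_nonneg _)
    · intro P P' h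
      have h1 := finProdFinEquiv.injective h
      have h2 : cls P = cls P' := (Prod.mk.inj h1).1
      have h3 : r P = r P' := (ZMod.finEquiv M).symm.injective (Prod.mk.inj h1).2
      obtain ⟨t, ht⟩ := hr' P P' h2 h3
      exact cong_mul _ (M • P₀) hdvd.1 hdvd.2 P P' t ht

end Pool.Agent.Y213.R1
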