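import Pool.Agent.Y213.R1.PartB

/-! Finite fibres: points of bounded height. -/

set_option autoImplicit false

namespace Pool.Agent.Y213.R1

open MvPolynomial Pool.Agent.Y213.EC WeierstrassCurve Pool.Agent.H901R3.MS

open scoped LinearAlgebra.Projectivization

variable {a b : ℤ}

theorem ht_rep {n : ℕ} (y : ℙ ℚ (Fin (n + 1) → ℚ)) (B : ℝ) (hy : y.mulHeight ≤ B) :
    ∃ (x : Fin (n + 1) → ℤ) (c : ℚ), c ≠ 0 ∧ (∀ i, (x i : ℚ) = c * y.rep i) ∧
      ∀ i, |(x i : ℝ)| ≤ B := by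
  obtain ⟨x, c, hp, hc, hx⟩ := exists_prim y.rep y.rep_nonzero
  refine ⟨x, c, hc, hx, fun i => ?_⟩
  have hgcd : Finset.univ.gcd x = 1 := by
    obtain ⟨W, hW⟩ := hp
    have h1 : Finset.univ.gcd x ∣ 1 := by
      rw [← hW]
      exact Finset.dvd_sum fun i hi => Dvd.dvd.mul_right (Finset.gcd_dvd hi) _
    rw [← Finset.normalize_gcd]
    exact normalize_eq_one.2 (isUnit_of_dvd_one h1)
  have h2 := Rat.mulHeight_eq_max_abs_of_gcd_eq_one hgcd
  have h3 : Height.mulHeight (((↑) : ℤ → ℚ) ∘ x) = y.mulHeight := by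
    have h4 : (((↑) : ℤ → ℚ) ∘ x) = c • y.rep := by
      funext i
      exact hx i
    rw [h4, Height.mulHeight_smul_eq_mulHeight _ hc, ← Projectivization.mulHeight_mk y.rep_nonzero,
      Projectivization.mk_rep]
  rw [h3] at h2
  have h5 : |x i| ≤ ⨆ i, |x i| := Finite.le_ciSup (fun i => |x i|) i
  have h6 : ((|x i| : ℤ) : ℝ) ≤ ((⨆ i, |x i| : ℤ) : ℝ) := by exact_mod_cast h5
  rw [Int.cast_abs] at h6
  exact (h6.trans h2.symm.le).trans hy

/-- the rational points over which there is a rational point -/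
def ImQ (a b : ℤ) {g n q : ℕ} (G : Fin q → Pol ℤ g n) : Set (ℙ ℚ (Fin n → ℚ)) :=
  {y | ∃ V : Fin g → Fin 3 → ℚ, (∀ i, OnK (a : ℚ) (b : ℚ) (V i)) ∧
    y ∈ Fib (Int.castRingHom ℚ) G V}

theorem finite_of_bound {α : Type} (S : Set α) (N : ℝ)
    (h : ∀ F : Finset α, (F : Set α) ⊆ S → (F.card : ℝ) ≤ N) : S.Finite ∧ (S.ncard : ℝ) ≤ N := by
  have hfin : S.Finite := by
    by_contra hinf
    obtain ⟨m, hm⟩ := exists_nat_gt N
    obtain ⟨F, hF, hc⟩ := Set.Infinite.exists_subset_card_eq hinf m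
    have h1 := h F hF
    rw [hc] at h1
    linarith
  refine ⟨hfin, ?_⟩
  have h1 := h hfin.toFinset (by simp)
  rwa [← Set.ncard_eq_toFinset_card S hfin] at h1

theorem partB_ht (hΔ : 4 * a ^ 3 + 27 * b ^ 2 ≠ 0)
    (hr : ∀ Q R : Pt (a : ℚ) (b : ℚ), ∃ m n : ℤ, (m ≠ 0 ∨ n ≠ 0) ∧ m • Q + n • R = 0)
    {g n q : ℕ} (G : Fin q → Pol ℤ g (n + 1)) (d : Fin q → Fin g → ℕ) (k : Fin q → ℕ)
    (hG : ∀ e, MHomog (G e) (d e)) (hX : ∀ e, XHomog (G e) (k e)) (D : ℕ)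
    (hfib : ∀ V : Fin g → Fin 3 → ℂ, (∀ i, OnK (a : ℂ) (b : ℂ) (V i)) →
      (Fib (Int.castRingHom ℂ) G V).encard ≤ D) :
    ∃ C : ℝ, 0 < C ∧ ∀ B : ℝ, 2 ≤ B → {y ∈ ImQ a b G | y.mulHeight ≤ B}.Finite ∧
      ({y ∈ ImQ a b G | y.mulHeight ≤ B}.ncard : ℝ) ≤ C * Real.log B ^ ((g : ℝ) / 2) := by
  classical
  obtain ⟨C, hC, H⟩ := partB hΔ hr G d k hG hX D hfib
  refine ⟨C * 3 ^ ((g : ℝ) / 2), by positivity, fun B hB => ?_⟩
  have hB1 : (1 : ℝ) ≤ B := by linarith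
  have hlB : 0 ≤ Real.log B := Real.log_nonneg hB1
  have hY : (2 : ℝ) ≤ B ^ 3 := by
    calc (2 : ℝ) ≤ B := hB
      _ = B ^ 1 := (pow_one _).symm
      _ ≤ B ^ 3 := pow_le_pow_right₀ hB1 (by norm_num)
  have H' := H (B ^ 3) hY
  rw [Real.log_pow, Real.mul_rpow (Nat.cast_nonneg _) hlB] at H'
  refine finite_of_bound _ _ fun F hF => ?_
  have hrep : ∀ y : F, ∃ (x : Fin (n + 1) → ℤ) (c : ℚ), c ≠ 0 ∧
      (∀ i, (x i : ℚ) = c * (y : ℙ ℚ (Fin (n + 1) → ℚ)).rep i) ∧ ∀ i, |(x i : ℝ)| ≤ B :=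
    fun y => ht_rep _ B (hF y.2).2
  choose x c hc hx hxB using hrep
  have hmin : ∀ y y' : F, y ≠ y' → ∃ i j, x y i * x y' j ≠ x y j * x y' i := by
    intro y y' hne
    by_contra hcon
    push Not at hcon
    apply hne
    apply Subtype.ext
    rw [← Projectivization.mk_rep (y : ℙ ℚ (Fin (n + 1) → ℚ)),
      ← Projectivization.mk_rep (y' : ℙ ℚ (Fin (n + 1) → ℚ)), Projectivization.mk_eq_mk_iff']
    obtain ⟨j, hj⟩ := Function.ne_iff.1 (y' : ℙ ℚ (Fin (n + 1) → ℚ)).rep_nonzero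
    have hj' : (y' : ℙ ℚ (Fin (n + 1) → ℚ)).rep j ≠ 0 := hj
    refine ⟨(y : ℙ ℚ (Fin (n + 1) → ℚ)).rep j / (y' : ℙ ℚ (Fin (n + 1) → ℚ)).rep j, ?_⟩
    funext i
    rw [Pi.smul_apply, smul_eq_mul]
    have h1 := congrArg (fun z : ℤ => (z : ℚ)) (hcon i j)
    push_cast at h1
    rw [hx, hx, hx, hx] at h1
    have h2 := hc y
    have h3 := hc y'
    rw [div_mul_eq_mul_div, div_eq_iff hj']
    refine mul_left_cancel₀ (mul_ne_zero h2 h3) ?_
    linear_combination -h1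
  have hinj : Function.Injective x := by
    intro y y' hyy
    by_contra hne
    obtain ⟨i, j, hij⟩ := hmin y y' hne
    rw [hyy] at hij
    exact hij (mul_comm _ _)
  have h1 := H' (Finset.univ.image x) (by
    intro z hz
    rw [Finset.mem_image] at hz
    obtain ⟨y, _, rfl⟩ := hz
    obtain ⟨V, hV, hfy⟩ := (hF y.2).1
    refine ⟨V, hV, fun e => ?_⟩
    have h2 : (fun j => (x y j : ℚ)) = fun j => c y * (y : ℙ ℚ (Fin (n + 1) → ℚ)).rep j :=
      funext fun j => hx y j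
    rw [h2, vl_xscale _ (G e) (k e) (hX e), hfy e, mul_zero]) (by
    intro z hz z' hz' hne
    rw [Finset.mem_image] at hz hz'
    obtain ⟨y, _, rfl⟩ := hz
    obtain ⟨y', _, rfl⟩ := hz'
    have hyy : y ≠ y' := fun h => hne (by rw [h])
    obtain ⟨i, j, hij⟩ := hmin y y' hyy
    refine ⟨⟨i, j, hij⟩, fun δ hδ => ?_⟩
    have h2 : (δ : ℤ) ≤ |x y i * x y' j - x y j * x y' i| :=
      Int.le_of_dvd (abs_pos.2 (sub_ne_zero.2 hij)) ((dvd_abs _ _).2 (hδ i j))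
    have h3 : ((δ : ℤ) : ℝ) ≤ ((|x y i * x y' j - x y j * x y' i| : ℤ) : ℝ) := by
      exact_mod_cast h2
    push_cast at h3
    have h4 : |(x y i : ℝ) * x y' j - x y j * x y' i| ≤ 2 * B ^ 2 := by
      refine (abs_sub _ _).trans ?_
      rw [abs_mul, abs_mul]
      have e1 : |(x y i : ℝ)| * |(x y' j : ℝ)| ≤ B * B :=
        mul_le_mul (hxB y i) (hxB y' j) (abs_nonneg _) (by linarith)
      have e2 : |(x y j : ℝ)| * |(x y' i : ℝ)| ≤ B * B :=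
        mul_le_mul (hxB y j) (hxB y' i) (abs_nonneg _) (by linarith)
      nlinarith
    have h5 : 2 * B ^ 2 ≤ B ^ 3 := by nlinarith [sq_nonneg B]
    linarith)
  have h2 : (Finset.univ.image x).card = F.card := by
    rw [Finset.card_image_of_injective _ hinj, Finset.card_univ, Fintype.card_coe]
  rw [h2] at h1
  rw [mul_assoc]
  exact_mod_cast h1

end Pool.Agent.Y213.R1
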