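import Pool.Agent.Y213.R1.Cong

/-! The denominators of the points `2 ^ j • P` grow like `exp (c 4 ^ j)`. -/

set_option autoImplicit false

namespace Pool.Agent.Y213.R1

open WeierstrassCurve Pool.Agent.H901R3.MS

variable {a b : ℤ}

/-- the common divisor of the first and the last coordinate -/
noncomputable def dn (P : Pt (a : ℚ) (b : ℚ)) : ℕ := Int.gcd (vec P 0) (vec P 2)

theorem dn_dvd (P : Pt (a : ℚ) (b : ℚ)) : (dn P : ℤ) ∣ vec P 0 ∧ (dn P : ℤ) ∣ vec P 2 :=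
  ⟨Int.gcd_dvd_left _ _, Int.gcd_dvd_right _ _⟩

theorem den_le {x y : ℚ} (h : (CV (a : ℚ) (b : ℚ)).toAffine.Nonsingular x y) :
    x.den ≤ dn (Affine.Point.some x y h : Pt (a : ℚ) (b : ℚ)) ^ 2 := by
  set P : Pt (a : ℚ) (b : ℚ) := Affine.Point.some x y h with hP
  obtain ⟨c, hp, hc, hv⟩ := vec_spec P
  have hE := vec_eqn P
  have h0 := hv 0
  have h2 := hv 2
  rw [hP, rep_some] at h0 h2
  simp only [Matrix.cons_val] at h0 h2
  rw [← hP] at h0 h2
  have hZ0 : vec P 2 ≠ 0 := by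
    intro hz
    rw [hz, Int.cast_zero, mul_one] at h2
    exact hc h2.symm
  obtain ⟨X', Z', hXZ, hX, hZ⟩ : ∃ X' Z' : ℤ, IsCoprime X' Z' ∧ vec P 0 = dn P * X' ∧
      vec P 2 = dn P * Z' := by
    obtain ⟨X', hX'⟩ := (dn_dvd P).1
    obtain ⟨Z', hZ'⟩ := (dn_dvd P).2
    refine ⟨X', Z', ?_, hX', hZ'⟩
    have hb := Int.gcd_eq_gcd_ab (vec P 0) (vec P 2)
    have hd0 : (dn P : ℤ) ≠ 0 := by
      intro hd
      rw [hd, zero_mul] at hZ'
      exact hZ0 hZ'
    refine ⟨Int.gcdA (vec P 0) (vec P 2), Int.gcdB (vec P 0) (vec P 2), ?_⟩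
    have hb' : (dn P : ℤ) = dn P * X' * Int.gcdA (vec P 0) (vec P 2) +
        dn P * Z' * Int.gcdB (vec P 0) (vec P 2) := by
      rw [← hX', ← hZ']
      exact hb
    refine mul_left_cancel₀ hd0 ?_
    linear_combination -hb'
  set d : ℤ := (dn P : ℤ) with hd
  have hd0 : d ≠ 0 := by
    intro hd
    rw [hd, zero_mul] at hZ
    exact hZ0 hZ
  have hE' : vec P 1 ^ 2 * Z' = d ^ 2 * (X' ^ 3 + a * X' * Z' ^ 2 + b * Z' ^ 3) := by
    refine mul_left_cancel₀ hd0 ?_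
    rw [hX, hZ] at hE
    linear_combination hE
  have hcop : IsCoprime Z' (X' ^ 3 + a * X' * Z' ^ 2 + b * Z' ^ 3) := by
    have h3 : IsCoprime Z' (X' ^ 3) := (hXZ.symm).pow_right
    have h4 : X' ^ 3 + a * X' * Z' ^ 2 + b * Z' ^ 3 = X' ^ 3 + (a * X' * Z' + b * Z' ^ 2) * Z' := by
      ring
    rw [h4]
    exact IsCoprime.add_mul_right_right h3 _
  have hdv : Z' ∣ d ^ 2 := by
    have h3 : Z' ∣ d ^ 2 * (X' ^ 3 + a * X' * Z' ^ 2 + b * Z' ^ 3) := ⟨vec P 1 ^ 2, by rw [← hE']; ring⟩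
    exact hcop.dvd_of_dvd_mul_right h3
  have hx : x = (X' : ℚ) / (Z' : ℚ) := by
    have hZ'0 : (Z' : ℚ) ≠ 0 := by
      intro hz
      have hz' : Z' = 0 := by exact_mod_cast hz
      rw [hz', mul_zero] at hZ
      exact hZ0 hZ
    have hd0' : (d : ℚ) ≠ 0 := by exact_mod_cast hd0
    have h3 : (d : ℚ) * X' = c * x := by
      rw [← h0, hX]; push_cast; ring
    have h4 : (d : ℚ) * Z' = c := by
      have h5 : ((vec P 2 : ℤ) : ℚ) = (d : ℚ) * Z' := by rw [hZ]; push_cast; ring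
      rw [← h5, h2]; ring
    rw [eq_div_iff hZ'0]
    refine mul_left_cancel₀ hd0' ?_
    rw [h3, ← h4]
    ring
  have h5 : ((x.den : ℤ)) ∣ Z' := by
    rw [hx, ← Rat.divInt_eq_div]
    exact Rat.den_dvd _ _
  have h6 : (x.den : ℤ) ∣ ((dn P ^ 2 : ℕ) : ℤ) := by
    push_cast
    exact h5.trans hdv
  have h7 : x.den ∣ dn P ^ 2 := by exact_mod_cast h6
  refine Nat.le_of_dvd ?_ h7
  have h8 : dn P ≠ 0 := by
    intro h9
    apply hd0
    rw [hd, h9]
    rfl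
  positivity

/-- the duplication formula -/
theorem dup {x y : ℚ} (h : (CV (a : ℚ) (b : ℚ)).toAffine.Nonsingular x y)
    (h2 : (Affine.Point.some x y h + Affine.Point.some x y h : Pt (a : ℚ) (b : ℚ)) ≠ 0) :
    y ≠ 0 ∧ ∃ (x' y' : ℚ) (h' : (CV (a : ℚ) (b : ℚ)).toAffine.Nonsingular x' y'),
      (Affine.Point.some x y h + Affine.Point.some x y h : Pt (a : ℚ) (b : ℚ)) =
        Affine.Point.some x' y' h' ∧
      x' * (4 * (x ^ 3 + a * x + b)) = x ^ 4 - 2 * a * x ^ 2 - 8 * b * x + a ^ 2 := by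
  have hy : y ≠ 0 := by
    intro hy
    exact h2 (add_opp h h rfl (by rw [hy, neg_zero]))
  refine ⟨hy, ?_⟩
  have hy' : y ≠ -y := by
    intro h3
    apply hy
    linarith
  obtain ⟨h', e⟩ := add_dbl h h rfl hy' ((3 * x ^ 2 + a) / (2 * y))
    (((3 * x ^ 2 + a) / (2 * y)) ^ 2 - x - x)
    (-(((3 * x ^ 2 + a) / (2 * y)) * ((((3 * x ^ 2 + a) / (2 * y)) ^ 2 - x - x) - x) + y)) rfl rfl rfl
  refine ⟨_, _, h', e, ?_⟩
  have hE : y ^ 2 = x ^ 3 + a * x + b := eqn_of h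
  rw [← hE]
  field_simp
  linear_combination (-32 * x) * hE

/-- the height of a rational number -/
def ht (x : ℚ) : ℤ := max |x.num| x.den

theorem abs_cubic_le (p q r s A D H : ℤ) (hA : |A| ≤ H) (hD : |D| ≤ H) :
    |p * A ^ 3 + q * A ^ 2 * D + r * A * D ^ 2 + s * D ^ 3| ≤ (|p| + |q| + |r| + |s|) * H ^ 3 := by
  have hH : 0 ≤ H := (abs_nonneg A).trans hA
  have h1 : ∀ (i j : ℕ), i + j = 3 → |A| ^ i * |D| ^ j ≤ H ^ 3 := by
    intro i j hij
    rw [← hij, pow_add]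
    gcongr
  have e1 : |p * A ^ 3| ≤ |p| * H ^ 3 := by
    rw [abs_mul, abs_pow]
    have := h1 3 0 rfl
    rw [pow_zero, mul_one] at this
    gcongr
  have e2 : |q * A ^ 2 * D| ≤ |q| * H ^ 3 := by
    rw [abs_mul, abs_mul, abs_pow, mul_assoc]
    have := h1 2 1 rfl
    rw [pow_one] at this
    gcongr
  have e3 : |r * A * D ^ 2| ≤ |r| * H ^ 3 := by
    rw [abs_mul, abs_mul, abs_pow, mul_assoc]
    have := h1 1 2 rfl
    rw [pow_one] at this
    gcongr
  have e4 : |s * D ^ 3| ≤ |s| * H ^ 3 := by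
    rw [abs_mul, abs_pow]
    have := h1 0 3 rfl
    rw [pow_zero, one_mul] at this
    gcongr
  have e5 := abs_add_le (p * A ^ 3 + q * A ^ 2 * D + r * A * D ^ 2) (s * D ^ 3)
  have e6 := abs_add_le (p * A ^ 3 + q * A ^ 2 * D) (r * A * D ^ 2)
  have e7 := abs_add_le (p * A ^ 3) (q * A ^ 2 * D)
  linarith

/-- the main estimate for the duplication -/
theorem dup_est (a b : ℤ) (hΔ : 4 * a ^ 3 + 27 * b ^ 2 ≠ 0) : ∃ c : ℤ, 0 < c ∧
    ∀ x x' : ℚ, 0 < x ^ 3 + a * x + b →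
      x' * (4 * (x ^ 3 + a * x + b)) = x ^ 4 - 2 * a * x ^ 2 - 8 * b * x + a ^ 2 →
      ht x ^ 4 ≤ c * ht x' ∧ ht x ≤ c * x'.den := by
  set Δ : ℤ := 4 * a ^ 3 + 27 * b ^ 2 with hΔd
  set c1 : ℤ := (|0| + |12| + |0| + |16 * a|) + (|3| + |0| + |-5 * a| + |-27 * b|) with hc1
  set c2 : ℤ := (|4 * Δ| + |-4 * a ^ 2 * b| + |4 * a * (3 * a ^ 3 + 22 * b ^ 2)| +
      |12 * b * (a ^ 3 + 8 * b ^ 2)|) +
    (|a ^ 2 * b| + |a * (5 * a ^ 3 + 32 * b ^ 2)| + |2 * b * (13 * a ^ 3 + 96 * b ^ 2)| +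
      |-3 * a ^ 2 * (a ^ 3 + 8 * b ^ 2)|) with hc2
  have hc1p : 0 < c1 := by
    rw [hc1]
    have : (0 : ℤ) < |12| := by norm_num
    positivity
  have hc2p : 0 ≤ c2 := by
    rw [hc2]
    positivity
  set c3 : ℤ := (2 * |a| + 2 * |b| + 1) * (4 * |Δ|) with hc3
  have hΔp : 0 < |Δ| := abs_pos.2 hΔ
  have hc3p : 0 < c3 := by
    rw [hc3]
    positivity
  refine ⟨c1 + c2 + c3, by linarith, ?_⟩
  intro x x' hpos hx'
  set A := x.num with hA
  set D : ℤ := (x.den : ℤ) with hD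
  have hDp : 0 < D := by
    rw [hD]
    exact_mod_cast x.den_pos
  have hDq : (D : ℚ) ≠ 0 := by exact_mod_cast hDp.ne'
  have hxAD : x = (A : ℚ) / (D : ℚ) := by
    rw [hA, hD]
    push_cast
    exact (Rat.num_div_den x).symm
  have hcopAD : IsCoprime A D := by
    rw [Int.isCoprime_iff_gcd_eq_one]
    exact x.reduced
  set W : ℤ := A ^ 3 + a * A * D ^ 2 + b * D ^ 3 with hW
  set N : ℤ := A ^ 4 - 2 * a * A ^ 2 * D ^ 2 - 8 * b * A * D ^ 3 + a ^ 2 * D ^ 4 with hN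
  set M : ℤ := 4 * D * W with hM
  have hWq : (W : ℚ) = (x ^ 3 + a * x + b) * D ^ 3 := by
    rw [hW, hxAD]
    push_cast
    field_simp
  have hWp : 0 < W := by
    have h1 : (0 : ℚ) < W := by
      rw [hWq]
      have : (0 : ℚ) < D := by exact_mod_cast hDp
      positivity
    exact_mod_cast h1
  have hMp : 0 < M := by
    rw [hM]
    positivity
  have hNM : x' * M = N := by
    have h1 : (N : ℚ) = (x ^ 4 - 2 * a * x ^ 2 - 8 * b * x + a ^ 2) * D ^ 4 := by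
      rw [hN, hxAD]
      push_cast
      field_simp
    rw [h1, ← hx', hM]
    push_cast
    rw [hWq]
    ring
  -- cancel
  have hcross : x'.num * M = N * x'.den := by
    have h1 : (x'.num : ℚ) = x' * x'.den := (Rat.mul_den_eq_num x').symm
    have h2 : ((x'.num * M : ℤ) : ℚ) = ((N * x'.den : ℤ) : ℚ) := by
      push_cast
      rw [h1, ← hNM]
      ring
    exact_mod_cast h2
  obtain ⟨t, ht1⟩ : (x'.den : ℤ) ∣ M := by
    have h1 : IsCoprime (x'.den : ℤ) x'.num := by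
      rw [isCoprime_comm, Int.isCoprime_iff_gcd_eq_one]
      exact x'.reduced
    exact h1.dvd_of_dvd_mul_left ⟨N, by rw [hcross]; ring⟩
  have ht2 : N = t * x'.num := by
    have h1 : (x'.den : ℤ) ≠ 0 := by exact_mod_cast x'.den_ne_zero
    refine mul_right_cancel₀ h1 ?_
    rw [← hcross, ht1]
    ring
  have hid1 : 4 * Δ * D ^ 7 = (12 * A ^ 2 * D + 16 * a * D ^ 3) * N -
      (3 * A ^ 3 - 5 * a * A * D ^ 2 - 27 * b * D ^ 3) * M := by
    rw [hN, hM, hW, hΔd]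
    ring
  have hid2 : 4 * Δ * A ^ 7 = (4 * Δ * A ^ 3 - 4 * a ^ 2 * b * A ^ 2 * D +
      4 * a * (3 * a ^ 3 + 22 * b ^ 2) * A * D ^ 2 + 12 * b * (a ^ 3 + 8 * b ^ 2) * D ^ 3) * N +
      (a ^ 2 * b * A ^ 3 + a * (5 * a ^ 3 + 32 * b ^ 2) * A ^ 2 * D +
        2 * b * (13 * a ^ 3 + 96 * b ^ 2) * A * D ^ 2 - 3 * a ^ 2 * (a ^ 3 + 8 * b ^ 2) * D ^ 3) * M := by
    rw [hN, hM, hW, hΔd]
    ring
  have htd : t ∣ 4 * Δ := by
    have h1 : t ∣ 4 * Δ * D ^ 7 := by
      rw [hid1, ht1, ht2]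
      exact dvd_sub ⟨(12 * A ^ 2 * D + 16 * a * D ^ 3) * x'.num, by ring⟩
        ⟨(3 * A ^ 3 - 5 * a * A * D ^ 2 - 27 * b * D ^ 3) * x'.den, by ring⟩
    have h2 : t ∣ 4 * Δ * A ^ 7 := by
      rw [hid2, ht1, ht2]
      exact dvd_add ⟨(4 * Δ * A ^ 3 - 4 * a ^ 2 * b * A ^ 2 * D +
        4 * a * (3 * a ^ 3 + 22 * b ^ 2) * A * D ^ 2 + 12 * b * (a ^ 3 + 8 * b ^ 2) * D ^ 3) * x'.num,
          by ring⟩
        ⟨(a ^ 2 * b * A ^ 3 + a * (5 * a ^ 3 + 32 * b ^ 2) * A ^ 2 * D +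
        2 * b * (13 * a ^ 3 + 96 * b ^ 2) * A * D ^ 2 - 3 * a ^ 2 * (a ^ 3 + 8 * b ^ 2) * D ^ 3) *
          x'.den, by ring⟩
    obtain ⟨u, v, huv⟩ := (hcopAD.pow : IsCoprime (A ^ 7) (D ^ 7))
    have h3 : 4 * Δ = u * (4 * Δ * A ^ 7) + v * (4 * Δ * D ^ 7) := by
      linear_combination (-4 * Δ) * huv
    rw [h3]
    exact dvd_add (Dvd.dvd.mul_left h2 _) (Dvd.dvd.mul_left h1 _)
  have htb : |t| ≤ 4 * |Δ| := by
    have h1 : |t| ∣ 4 * |Δ| := by
      have h2 := (abs_dvd_abs t (4 * Δ)).2 htd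
      rwa [abs_mul, show |(4 : ℤ)| = 4 by norm_num] at h2
    exact Int.le_of_dvd (by positivity) h1
  have hH1 : |A| ≤ ht x := le_max_left _ _
  have hH2 : |D| ≤ ht x := by
    rw [abs_of_pos hDp]
    exact le_max_right _ _
  have hHp : 0 < ht x := lt_of_lt_of_le (abs_pos.2 hDp.ne') hH2
  have hN' : |N| ≤ 4 * |Δ| * ht x' := by
    rw [ht2, abs_mul]
    have : |x'.num| ≤ ht x' := le_max_left _ _
    gcongr
  have hM' : |M| ≤ 4 * |Δ| * ht x' := by
    rw [ht1, abs_mul, mul_comm]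
    have : |(x'.den : ℤ)| ≤ ht x' := by
      rw [Nat.abs_cast]
      exact le_max_right _ _
    gcongr
  have hh' : 0 ≤ ht x' := (abs_nonneg _).trans (le_max_left _ _)
  constructor
  · -- the height
    have k1 : D ^ 7 ≤ c1 * ht x ^ 3 * ht x' := by
      have h1 := abs_cubic_le 0 12 0 (16 * a) A D (ht x) hH1 hH2
      have h2 := abs_cubic_le 3 0 (-5 * a) (-27 * b) A D (ht x) hH1 hH2
      have h3 : 4 * |Δ| * D ^ 7 ≤ 4 * |Δ| * (c1 * ht x ^ 3 * ht x') := by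
        have h4 : |4 * Δ * D ^ 7| = 4 * |Δ| * D ^ 7 := by
          rw [abs_mul, abs_mul, abs_pow, abs_of_pos hDp, show |(4 : ℤ)| = 4 by norm_num]
        rw [← h4, hid1]
        refine (abs_sub _ _).trans ?_
        rw [abs_mul, abs_mul]
        have e1 : |12 * A ^ 2 * D + 16 * a * D ^ 3| ≤ (|0| + |12| + |0| + |16 * a|) * ht x ^ 3 := by
          refine le_trans (le_of_eq ?_) h1
          congr 1
          ring
        have e2 : |3 * A ^ 3 - 5 * a * A * D ^ 2 - 27 * b * D ^ 3| ≤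
            (|3| + |0| + |-5 * a| + |-27 * b|) * ht x ^ 3 := by
          refine le_trans (le_of_eq ?_) h2
          congr 1
          ring
        calc |12 * A ^ 2 * D + 16 * a * D ^ 3| * |N| +
            |3 * A ^ 3 - 5 * a * A * D ^ 2 - 27 * b * D ^ 3| * |M| ≤
            ((|0| + |12| + |0| + |16 * a|) * ht x ^ 3) * (4 * |Δ| * ht x') +
            ((|3| + |0| + |-5 * a| + |-27 * b|) * ht x ^ 3) * (4 * |Δ| * ht x') := by
              gcongr
          _ = _ := by rw [hc1]; ring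
      exact le_of_mul_le_mul_left h3 (by positivity)
    have k2 : |A| ^ 7 ≤ c2 * ht x ^ 3 * ht x' := by
      have h1 := abs_cubic_le (4 * Δ) (-4 * a ^ 2 * b) (4 * a * (3 * a ^ 3 + 22 * b ^ 2))
        (12 * b * (a ^ 3 + 8 * b ^ 2)) A D (ht x) hH1 hH2
      have h2 := abs_cubic_le (a ^ 2 * b) (a * (5 * a ^ 3 + 32 * b ^ 2))
        (2 * b * (13 * a ^ 3 + 96 * b ^ 2)) (-3 * a ^ 2 * (a ^ 3 + 8 * b ^ 2)) A D (ht x) hH1 hH2
      have h3 : 4 * |Δ| * |A| ^ 7 ≤ 4 * |Δ| * (c2 * ht x ^ 3 * ht x') := by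
        have h4 : |4 * Δ * A ^ 7| = 4 * |Δ| * |A| ^ 7 := by
          rw [abs_mul, abs_mul, abs_pow, show |(4 : ℤ)| = 4 by norm_num]
        rw [← h4, hid2]
        refine (abs_add_le _ _).trans ?_
        rw [abs_mul, abs_mul]
        have e1 : |4 * Δ * A ^ 3 - 4 * a ^ 2 * b * A ^ 2 * D +
            4 * a * (3 * a ^ 3 + 22 * b ^ 2) * A * D ^ 2 + 12 * b * (a ^ 3 + 8 * b ^ 2) * D ^ 3| ≤
            (|4 * Δ| + |-4 * a ^ 2 * b| + |4 * a * (3 * a ^ 3 + 22 * b ^ 2)| +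
              |12 * b * (a ^ 3 + 8 * b ^ 2)|) * ht x ^ 3 := by
          refine le_trans (le_of_eq ?_) h1
          congr 1
          ring
        have e2 : |a ^ 2 * b * A ^ 3 + a * (5 * a ^ 3 + 32 * b ^ 2) * A ^ 2 * D +
            2 * b * (13 * a ^ 3 + 96 * b ^ 2) * A * D ^ 2 - 3 * a ^ 2 * (a ^ 3 + 8 * b ^ 2) * D ^ 3| ≤
            (|a ^ 2 * b| + |a * (5 * a ^ 3 + 32 * b ^ 2)| + |2 * b * (13 * a ^ 3 + 96 * b ^ 2)| +
              |-3 * a ^ 2 * (a ^ 3 + 8 * b ^ 2)|) * ht x ^ 3 := by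
          refine le_trans (le_of_eq ?_) h2
          congr 1
          ring
        calc _ ≤ ((|4 * Δ| + |-4 * a ^ 2 * b| + |4 * a * (3 * a ^ 3 + 22 * b ^ 2)| +
              |12 * b * (a ^ 3 + 8 * b ^ 2)|) * ht x ^ 3) * (4 * |Δ| * ht x') +
            ((|a ^ 2 * b| + |a * (5 * a ^ 3 + 32 * b ^ 2)| + |2 * b * (13 * a ^ 3 + 96 * b ^ 2)| +
              |-3 * a ^ 2 * (a ^ 3 + 8 * b ^ 2)|) * ht x ^ 3) * (4 * |Δ| * ht x') := by
              gcongr
          _ = _ := by rw [hc2]; ring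
      exact le_of_mul_le_mul_left h3 (by positivity)
    have k3 : ht x ^ 7 ≤ (c1 + c2) * ht x ^ 3 * ht x' := by
      rcases max_choice (|x.num|) (x.den : ℤ) with h1 | h1
      · have h2 : ht x = |A| := h1
        have h3 : (0 : ℤ) ≤ c1 * ht x ^ 3 * ht x' := by positivity
        calc ht x ^ 7 = |A| ^ 7 := by rw [h2]
          _ ≤ c2 * ht x ^ 3 * ht x' := k2
          _ ≤ _ := by linarith
      · have h2 : ht x = D := h1
        have h3 : (0 : ℤ) ≤ c2 * ht x ^ 3 * ht x' := by positivity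
        calc ht x ^ 7 = D ^ 7 := by rw [h2]
          _ ≤ c1 * ht x ^ 3 * ht x' := k1
          _ ≤ _ := by linarith
    have k4 : ht x ^ 3 * ht x ^ 4 ≤ ht x ^ 3 * ((c1 + c2) * ht x') := by
      calc ht x ^ 3 * ht x ^ 4 = ht x ^ 7 := by ring
        _ ≤ _ := k3
        _ = _ := by ring
    have k5 := le_of_mul_le_mul_left k4 (by positivity)
    have k6 : 0 ≤ c3 * ht x' := by positivity
    linarith
  · -- the denominator
    have k1 : M ≤ 4 * |Δ| * x'.den := by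
      calc M ≤ |M| := le_abs_self _
        _ = x'.den * |t| := by rw [ht1, abs_mul, Nat.abs_cast]
        _ ≤ x'.den * (4 * |Δ|) := by gcongr
        _ = _ := by ring
    have k2 : ht x ≤ (2 * |a| + 2 * |b| + 1) * M := by
      have hW1 : 1 ≤ W := hWp
      have hMD : D ≤ M := by
        rw [hM]
        nlinarith
      by_cases hc : |A| ≤ (2 * |a| + 2 * |b| + 1) * D
      · have h1 : ht x ≤ (2 * |a| + 2 * |b| + 1) * D := by
          refine max_le hc ?_
          change D ≤ _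
          have : (0 : ℤ) ≤ (2 * |a| + 2 * |b|) * D := by positivity
          linarith
        refine h1.trans ?_
        gcongr
      · push Not at hc
        have hA1 : D ≤ |A| := by
          have : (0 : ℤ) ≤ (2 * |a| + 2 * |b|) * D := by positivity
          linarith
        have h1 : ht x = |A| := max_eq_left hA1
        rw [h1]
        have h2 : |A| ≤ 2 * W := by
          have e1 : |A| ^ 3 ≤ |W| + |a| * |A| * D ^ 2 + |b| * D ^ 3 := by
            have e2 : A ^ 3 = W - a * A * D ^ 2 - b * D ^ 3 := by rw [hW]; ring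
            have e3 : |A| ^ 3 = |W - a * A * D ^ 2 - b * D ^ 3| := by rw [← e2, abs_pow]
            rw [e3]
            have e4 := abs_sub (W - a * A * D ^ 2) (b * D ^ 3)
            have e5 := abs_sub W (a * A * D ^ 2)
            have e6 : |a * A * D ^ 2| = |a| * |A| * D ^ 2 := by
              rw [abs_mul, abs_mul, abs_pow, abs_of_pos hDp]
            have e7 : |b * D ^ 3| = |b| * D ^ 3 := by
              rw [abs_mul, abs_pow, abs_of_pos hDp]
            linarith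
          rw [abs_of_pos hWp] at e1
          have e2 : |a| * |A| * D ^ 2 ≤ |a| * D * |A| ^ 2 := by
            calc |a| * |A| * D ^ 2 = |a| * D * |A| * D := by ring
              _ ≤ |a| * D * |A| * |A| := by gcongr
              _ = _ := by ring
          have e3 : |b| * D ^ 3 ≤ |b| * D * |A| ^ 2 := by
            calc |b| * D ^ 3 = |b| * D * D ^ 2 := by ring
              _ ≤ |b| * D * |A| ^ 2 := by gcongr
          have e4 : 2 * (|a| * D * |A| ^ 2 + |b| * D * |A| ^ 2) ≤ |A| ^ 3 - D * |A| ^ 2 := by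
            have e5 : (2 * |a| + 2 * |b| + 1) * D * |A| ^ 2 ≤ |A| * |A| ^ 2 := by gcongr
            calc 2 * (|a| * D * |A| ^ 2 + |b| * D * |A| ^ 2) =
                (2 * |a| + 2 * |b| + 1) * D * |A| ^ 2 - D * |A| ^ 2 := by ring
              _ ≤ |A| * |A| ^ 2 - D * |A| ^ 2 := by linarith
              _ = _ := by ring
          have e5 : (0 : ℤ) ≤ D * |A| ^ 2 := by positivity
          have e6 : |A| ^ 3 ≤ 2 * W := by linarith
          have e7 : 1 ≤ |A| := by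
            have : (1 : ℤ) ≤ D := hDp
            linarith
          have e8 : |A| ≤ |A| ^ 3 := by
            calc |A| = |A| ^ 1 := by ring
              _ ≤ |A| ^ 3 := pow_le_pow_right₀ e7 (by norm_num)
          linarith
        have h3 : 2 * W ≤ M := by
          rw [hM]
          have : (1 : ℤ) ≤ D := hDp
          nlinarith
        have h4 : M ≤ (2 * |a| + 2 * |b| + 1) * M := by
          have : (0 : ℤ) ≤ (2 * |a| + 2 * |b|) * M := by positivity
          linarith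
        linarith
    have k3 : (2 * |a| + 2 * |b| + 1) * M ≤ c3 * x'.den := by
      rw [hc3]
      calc (2 * |a| + 2 * |b| + 1) * M ≤ (2 * |a| + 2 * |b| + 1) * (4 * |Δ| * x'.den) := by gcongr
        _ = _ := by ring
    have k4 : (0 : ℤ) ≤ (c1 + c2) * x'.den := by positivity
    linarith

end Pool.Agent.Y213.R1
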