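import Pool.Agent.Y213.R1.Growth

/-! The denominators of the points `2 ^ j • P` grow like `exp (c 4 ^ j)`. -/

set_option autoImplicit false

namespace Pool.Agent.Y213.R1

open WeierstrassCurve Pool.Agent.H901R3.MS

variable {a b : ℤ}

theorem finite_ht (B : ℤ) : {x : ℚ | ht x ≤ B}.Finite := by
  refine Set.Finite.subset (((Set.finite_Icc (-B) B).prod (Set.finite_Icc (-B) B)).image
    (fun p : ℤ × ℤ => (p.1 : ℚ) / p.2)) ?_
  intro x hx
  have h1 : |x.num| ≤ B := (le_max_left _ _).trans hx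
  have h2 : (x.den : ℤ) ≤ B := (le_max_right _ _).trans hx
  have h3 := abs_le.1 h1
  refine ⟨(x.num, (x.den : ℤ)), ⟨⟨h3.1, h3.2⟩, ⟨?_, h2⟩⟩, ?_⟩
  · have : (0 : ℤ) ≤ x.den := by positivity
    simp only
    linarith
  · simp only [Int.cast_natCast]
    exact Rat.num_div_den x

/-- the estimates for the duplication in terms of points -/
theorem step_est (hΔ : 4 * a ^ 3 + 27 * b ^ 2 ≠ 0) : ∃ c : ℤ, 0 < c ∧
    ∀ P : Pt (a : ℚ) (b : ℚ), P + P ≠ 0 →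
      ht (rep P 0) ^ 4 ≤ c * ht (rep (P + P) 0) ∧ ht (rep P 0) ≤ c * (dn (P + P) : ℤ) ^ 2 := by
  obtain ⟨c, hc, H⟩ := dup_est a b hΔ
  refine ⟨c, hc, ?_⟩
  intro P h2
  rcases P with _ | ⟨x, y, h⟩
  · exact absurd (add_zero (0 : Pt (a : ℚ) (b : ℚ))) h2
  · obtain ⟨hy, x', y', h', e, hx'⟩ := dup h h2
    have hpos : 0 < x ^ 3 + a * x + b := by
      have hE : y ^ 2 = x ^ 3 + a * x + b := eqn_of h
      rw [← hE]
      positivity
    obtain ⟨e1, e2⟩ := H x x' hpos hx'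
    rw [e, rep_some, rep_some]
    simp only [Matrix.cons_val_zero]
    refine ⟨e1, e2.trans ?_⟩
    have h3 := den_le h'
    have h4 : (x'.den : ℤ) ≤ (dn (Affine.Point.some x' y' h' : Pt (a : ℚ) (b : ℚ)) : ℤ) ^ 2 := by
      exact_mod_cast h3
    gcongr

theorem inj_x (P₀ : Pt (a : ℚ) (b : ℚ)) (hP₀ : ∀ n : ℕ, n ≠ 0 → n • P₀ ≠ 0) :
    Function.Injective fun j : ℕ => rep ((2 ^ j) • P₀) 0 := by
  have key : ∀ i j : ℕ, i < j → rep ((2 ^ i) • P₀) 0 ≠ rep ((2 ^ j) • P₀) 0 := by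
    intro i j hij h
    have h2 : ∀ P Q : Pt (a : ℚ) (b : ℚ), P ≠ 0 → Q ≠ 0 → rep P 0 = rep Q 0 → P = Q ∨ P = -Q := by
      intro P Q hP hQ hPQ
      rcases P with _ | ⟨x, y, h⟩
      · exact absurd rfl hP
      rcases Q with _ | ⟨x', y', h'⟩
      · exact absurd rfl hQ
      rw [rep_some, rep_some] at hPQ
      simp only [Matrix.cons_val_zero] at hPQ
      subst hPQ
      have hy2 : y ^ 2 = y' ^ 2 := by
        have e1 : y ^ 2 = x ^ 3 + a * x + b := eqn_of h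
        have e2 : y' ^ 2 = x ^ 3 + a * x + b := eqn_of h'
        rw [e1, e2]
      rcases sq_eq_sq_iff_eq_or_eq_neg.1 hy2 with h3 | h3
      · left
        subst h3
        rfl
      · right
        rw [← add_eq_zero_iff_eq_neg]
        exact add_opp h h' rfl h3
    have hp : (2 : ℕ) ^ i < 2 ^ j := Nat.pow_lt_pow_right (by norm_num) hij
    rcases h2 _ _ (hP₀ _ (by positivity)) (hP₀ _ (by positivity)) h with h3 | h3
    · refine hP₀ (2 ^ j - 2 ^ i) (by omega) ?_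
      rw [← sub_eq_zero] at h3
      have h4 : ((2 ^ j - 2 ^ i : ℕ) • P₀ : Pt (a : ℚ) (b : ℚ)) + (2 ^ i : ℕ) • P₀ =
          (2 ^ j : ℕ) • P₀ := by
        rw [← add_nsmul, Nat.sub_add_cancel hp.le]
      have h5 : ((2 ^ j - 2 ^ i : ℕ) • P₀ : Pt (a : ℚ) (b : ℚ)) =
          -(((2 ^ i : ℕ) • P₀ : Pt (a : ℚ) (b : ℚ)) - (2 ^ j : ℕ) • P₀) := by
        rw [neg_sub]
        exact eq_sub_of_add_eq h4
      rw [h5, h3, neg_zero]
    · refine hP₀ (2 ^ i + 2 ^ j) (by positivity) ?_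
      rw [add_nsmul, h3]
      abel
  intro i j hij
  rcases lt_trichotomy i j with h | h | h
  · exact absurd hij (key i j h)
  · exact h
  · exact absurd hij.symm (key j i h)

theorem unbounded (P₀ : Pt (a : ℚ) (b : ℚ)) (hP₀ : ∀ n : ℕ, n ≠ 0 → n • P₀ ≠ 0) (B : ℤ) :
    ∃ j : ℕ, B < ht (rep ((2 ^ j) • P₀) 0) := by
  by_contra hcon
  push Not at hcon
  have h1 : (Set.range fun j : ℕ => rep ((2 ^ j) • P₀) 0) ⊆ {x : ℚ | ht x ≤ B} := by
    rintro _ ⟨j, rfl⟩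
    exact hcon j
  exact Set.infinite_range_of_injective (inj_x P₀ hP₀) ((finite_ht B).subset h1)

/-- growth of the denominators -/
theorem growth (hΔ : 4 * a ^ 3 + 27 * b ^ 2 ≠ 0) (P₀ : Pt (a : ℚ) (b : ℚ))
    (hP₀ : ∀ n : ℕ, n ≠ 0 → n • P₀ ≠ 0) :
    ∃ (j₀ : ℕ) (c : ℝ), 0 < c ∧ ∀ i : ℕ,
      Real.exp (4 ^ i) ≤ c * (dn ((2 ^ (j₀ + i + 1)) • P₀) : ℝ) ^ 2 := by
  obtain ⟨c, hc, H⟩ := step_est (a := a) (b := b) hΔ
  obtain ⟨j₀, hj₀⟩ := unbounded P₀ hP₀ (3 * c)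
  have hcr : (1 : ℝ) ≤ c := by exact_mod_cast hc
  have hdb : ∀ j : ℕ, (2 ^ j) • P₀ + (2 ^ j) • P₀ = (2 ^ (j + 1)) • P₀ := by
    intro j
    rw [← add_nsmul]
    congr 1
    ring
  have hst : ∀ j : ℕ, ht (rep ((2 ^ j) • P₀) 0) ^ 4 ≤ c * ht (rep ((2 ^ (j + 1)) • P₀) 0) ∧
      ht (rep ((2 ^ j) • P₀) 0) ≤ c * (dn ((2 ^ (j + 1)) • P₀) : ℤ) ^ 2 := by
    intro j
    have h1 := H ((2 ^ j) • P₀) (by rw [hdb]; exact hP₀ _ (by positivity))
    rwa [hdb] at h1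
  have hgr : ∀ i : ℕ, Real.exp (4 ^ i) * c ≤ (ht (rep ((2 ^ (j₀ + i)) • P₀) 0) : ℝ) := by
    intro i
    induction i with
    | zero =>
      have h1 : ((3 * c : ℤ) : ℝ) < (ht (rep ((2 ^ j₀) • P₀) 0) : ℝ) := by exact_mod_cast hj₀
      push_cast at h1
      rw [pow_zero, add_zero]
      have h2 : Real.exp 1 ≤ 3 := by
        have := Real.exp_one_lt_d9
        linarith
      have h3 : Real.exp 1 * c ≤ 3 * c := by gcongr
      linarith
    | succ i ih =>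
      have h1 := (hst (j₀ + i)).1
      have h2 : ((ht (rep ((2 ^ (j₀ + i)) • P₀) 0) ^ 4 : ℤ) : ℝ) ≤
          ((c * ht (rep ((2 ^ (j₀ + i + 1)) • P₀) 0) : ℤ) : ℝ) := by exact_mod_cast h1
      push_cast at h2
      have h3 : (Real.exp (4 ^ i) * c) ^ 4 ≤ c * (ht (rep ((2 ^ (j₀ + i + 1)) • P₀) 0) : ℝ) := by
        refine le_trans ?_ h2
        gcongr
      have h4 : (Real.exp (4 ^ i) * c) ^ 4 = c * (Real.exp (4 ^ (i + 1)) * c ^ 3) := by
        rw [mul_pow, ← Real.exp_nat_mul, pow_succ (4 : ℝ) i]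
        push_cast
        rw [mul_comm (4 : ℝ) (4 ^ i)]
        ring
      rw [h4] at h3
      have h5 := le_of_mul_le_mul_left h3 (by positivity)
      refine le_trans ?_ h5
      have h6 : (c : ℝ) ≤ (c : ℝ) ^ 3 := by
        calc (c : ℝ) = (c : ℝ) ^ 1 := (pow_one _).symm
          _ ≤ (c : ℝ) ^ 3 := pow_le_pow_right₀ hcr (by norm_num)
      gcongr
  refine ⟨j₀, c, by linarith, fun i => ?_⟩
  have h1 := (hst (j₀ + i)).2
  have h2 : (ht (rep ((2 ^ (j₀ + i)) • P₀) 0) : ℝ) ≤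
      ((c * (dn ((2 ^ (j₀ + i + 1)) • P₀) : ℤ) ^ 2 : ℤ) : ℝ) := by exact_mod_cast h1
  push_cast at h2
  refine le_trans ?_ h2
  refine le_trans ?_ (hgr i)
  have : Real.exp (4 ^ i) * 1 ≤ Real.exp (4 ^ i) * c := by gcongr
  linarith

end Pool.Agent.Y213.R1
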