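import Pool.Agent.H901R3.MS.Defs

/-! The two addition laws of bidegree `(2, 2)` of Bosma and Lenstra on `y ^ 2 = x ^ 3 + a x + b`,
which together are defined everywhere on the neighbourhood of the zero section. -/

set_option autoImplicit false

namespace Pool.Agent.Y213.R1

open WeierstrassCurve Pool.Agent.H901R3.MS

/-- the first law -/
def L1 {R : Type} [CommRing R] (a b : R) (P Q : Fin 3 → R) : Fin 3 → R :=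
  ![(P 0 * Q 1 - Q 0 * P 1) * (P 1 * Q 2 + Q 1 * P 2) + (P 0 * Q 2 - Q 0 * P 2) * P 1 * Q 1 -
      a * (P 0 * Q 2 + Q 0 * P 2) * (P 0 * Q 2 - Q 0 * P 2) -
      3 * b * (P 0 * Q 2 - Q 0 * P 2) * P 2 * Q 2,
    -3 * P 0 * Q 0 * (P 0 * Q 1 - Q 0 * P 1) - P 1 * Q 1 * (P 1 * Q 2 - Q 1 * P 2) -
      a * (P 0 * Q 1 - Q 0 * P 1) * P 2 * Q 2 + a * (P 0 * Q 2 + Q 0 * P 2) * (P 1 * Q 2 - Q 1 * P 2) +
      3 * b * (P 1 * Q 2 - Q 1 * P 2) * P 2 * Q 2,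
    3 * P 0 * Q 0 * (P 0 * Q 2 - Q 0 * P 2) - (P 1 * Q 2 + Q 1 * P 2) * (P 1 * Q 2 - Q 1 * P 2) +
      a * (P 0 * Q 2 - Q 0 * P 2) * P 2 * Q 2]

/-- the second law -/
def L2 {R : Type} [CommRing R] (a b : R) (P Q : Fin 3 → R) : Fin 3 → R :=
  ![(P 0 * Q 1 + Q 0 * P 1) * (P 1 * Q 1 - a * (P 0 * Q 2 + Q 0 * P 2) - 3 * b * P 2 * Q 2) -
      (P 1 * Q 2 + Q 1 * P 2) * (a * P 0 * Q 0 + 3 * b * (P 0 * Q 2 + Q 0 * P 2) -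
        a * a * P 2 * Q 2),
    (3 * P 0 * Q 0 + a * P 2 * Q 2) * (a * P 0 * Q 0 + 3 * b * (P 0 * Q 2 + Q 0 * P 2) -
        a * a * P 2 * Q 2) +
      (P 1 * Q 1 + a * (P 0 * Q 2 + Q 0 * P 2) + 3 * b * P 2 * Q 2) *
        (P 1 * Q 1 - a * (P 0 * Q 2 + Q 0 * P 2) - 3 * b * P 2 * Q 2),
    (P 1 * Q 2 + Q 1 * P 2) * (P 1 * Q 1 + a * (P 0 * Q 2 + Q 0 * P 2) + 3 * b * P 2 * Q 2) +
      (P 0 * Q 1 + Q 0 * P 1) * (3 * P 0 * Q 0 + a * P 2 * Q 2)]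

/-- proportional vectors -/
def Par {R : Type} [CommRing R] (u v : Fin 3 → R) : Prop :=
  u 0 * v 1 = u 1 * v 0 ∧ u 0 * v 2 = u 2 * v 0 ∧ u 1 * v 2 = u 2 * v 1

theorem L1_zero {R : Type} [CommRing R] (a b : R) (P Q : Fin 3 → R) :
    L1 a b P Q 0 = (P 0 * Q 1 - Q 0 * P 1) * (P 1 * Q 2 + Q 1 * P 2) +
      (P 0 * Q 2 - Q 0 * P 2) * P 1 * Q 1 -
      a * (P 0 * Q 2 + Q 0 * P 2) * (P 0 * Q 2 - Q 0 * P 2) -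
      3 * b * (P 0 * Q 2 - Q 0 * P 2) * P 2 * Q 2 := rfl

theorem L1_one {R : Type} [CommRing R] (a b : R) (P Q : Fin 3 → R) :
    L1 a b P Q 1 = -3 * P 0 * Q 0 * (P 0 * Q 1 - Q 0 * P 1) -
      P 1 * Q 1 * (P 1 * Q 2 - Q 1 * P 2) -
      a * (P 0 * Q 1 - Q 0 * P 1) * P 2 * Q 2 +
      a * (P 0 * Q 2 + Q 0 * P 2) * (P 1 * Q 2 - Q 1 * P 2) +
      3 * b * (P 1 * Q 2 - Q 1 * P 2) * P 2 * Q 2 := rfl

theorem L1_two {R : Type} [CommRing R] (a b : R) (P Q : Fin 3 → R) :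
    L1 a b P Q 2 = 3 * P 0 * Q 0 * (P 0 * Q 2 - Q 0 * P 2) -
      (P 1 * Q 2 + Q 1 * P 2) * (P 1 * Q 2 - Q 1 * P 2) +
      a * (P 0 * Q 2 - Q 0 * P 2) * P 2 * Q 2 := rfl

theorem L2_zero {R : Type} [CommRing R] (a b : R) (P Q : Fin 3 → R) :
    L2 a b P Q 0 = (P 0 * Q 1 + Q 0 * P 1) * (P 1 * Q 1 - a * (P 0 * Q 2 + Q 0 * P 2) -
      3 * b * P 2 * Q 2) -
      (P 1 * Q 2 + Q 1 * P 2) * (a * P 0 * Q 0 + 3 * b * (P 0 * Q 2 + Q 0 * P 2) -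
        a * a * P 2 * Q 2) := rfl

theorem L2_one {R : Type} [CommRing R] (a b : R) (P Q : Fin 3 → R) :
    L2 a b P Q 1 = (3 * P 0 * Q 0 + a * P 2 * Q 2) * (a * P 0 * Q 0 +
        3 * b * (P 0 * Q 2 + Q 0 * P 2) - a * a * P 2 * Q 2) +
      (P 1 * Q 1 + a * (P 0 * Q 2 + Q 0 * P 2) + 3 * b * P 2 * Q 2) *
        (P 1 * Q 1 - a * (P 0 * Q 2 + Q 0 * P 2) - 3 * b * P 2 * Q 2) := rfl

theorem L2_two {R : Type} [CommRing R] (a b : R) (P Q : Fin 3 → R) :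
    L2 a b P Q 2 = (P 1 * Q 2 + Q 1 * P 2) * (P 1 * Q 1 + a * (P 0 * Q 2 + Q 0 * P 2) +
      3 * b * P 2 * Q 2) + (P 0 * Q 1 + Q 0 * P 1) * (3 * P 0 * Q 0 + a * P 2 * Q 2) := rfl

section

variable {F : Type} [Field F] {a b : F}

theorem rep_zero_pt : rep (0 : Pt a b) = ![0, 1, 0] := rfl

theorem rep_some {x y : F} (h : (CV a b).toAffine.Nonsingular x y) :
    rep (Affine.Point.some x y h : Pt a b) = ![x, y, 1] := rfl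

theorem par_gen [DecidableEq F] {x₁ y₁ x₂ y₂ : F} (h₁ : (CV a b).toAffine.Nonsingular x₁ y₁)
    (h₂ : (CV a b).toAffine.Nonsingular x₂ y₂) (hx : x₁ ≠ x₂) :
    Par (L1 a b ![x₁, y₁, 1] ![x₂, y₂, 1])
      (rep (Affine.Point.some x₁ y₁ h₁ + Affine.Point.some x₂ y₂ h₂ : Pt a b)) ∧
    Par (L2 a b ![x₁, y₁, 1] ![x₂, y₂, 1])
      (rep (Affine.Point.some x₁ y₁ h₁ + Affine.Point.some x₂ y₂ h₂ : Pt a b)) := by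
  have hD : x₁ - x₂ ≠ 0 := sub_ne_zero.2 hx
  set l : F := (y₁ - y₂) / (x₁ - x₂) with hl
  set x₃ : F := l ^ 2 - x₁ - x₂ with hx₃
  set y₃ : F := -(l * (x₃ - x₁) + y₁) with hy₃
  obtain ⟨h₃, hs⟩ := add_ne h₁ h₂ hx l x₃ y₃ hl hx₃ hy₃
  have e1 : y₁ ^ 2 = x₁ ^ 3 + a * x₁ + b := eqn_of h₁
  have e2 : y₂ ^ 2 = x₂ ^ 3 + a * x₂ + b := eqn_of h₂
  have hlD : l * (x₁ - x₂) = y₁ - y₂ := by
    rw [hl]
    field_simp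
  have c0 : L1 a b ![x₁, y₁, 1] ![x₂, y₂, 1] 0 = -(x₁ - x₂) ^ 3 * x₃ := by
    rw [L1_zero, hx₃]
    simp only [Matrix.cons_val_zero, Matrix.cons_val_one, Matrix.cons_val]
    linear_combination (x₁ - 2 * x₂) * e1 + (2 * x₁ - x₂) * e2 +
      (x₁ - x₂) * (l * (x₁ - x₂) + (y₁ - y₂)) * hlD
  have c1 : L1 a b ![x₁, y₁, 1] ![x₂, y₂, 1] 1 = -(x₁ - x₂) ^ 3 * y₃ := by
    rw [L1_one, hy₃, hx₃]
    simp only [Matrix.cons_val_zero, Matrix.cons_val_one, Matrix.cons_val]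
    linear_combination (-y₁ + 2 * y₂) * e1 + (-2 * y₁ + y₂) * e2 -
      ((l * (x₁ - x₂)) ^ 2 + (l * (x₁ - x₂)) * (y₁ - y₂) + (y₁ - y₂) ^ 2 -
        (2 * x₁ + x₂) * (x₁ - x₂) ^ 2) * hlD
  have c2 : L1 a b ![x₁, y₁, 1] ![x₂, y₂, 1] 2 = -(x₁ - x₂) ^ 3 * 1 := by
    rw [L1_two]
    simp only [Matrix.cons_val_zero, Matrix.cons_val_one, Matrix.cons_val]
    linear_combination (-1) * e1 + e2
  have hD3 : -(x₁ - x₂) ^ 3 ≠ 0 := neg_ne_zero.2 (pow_ne_zero _ hD)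
  rw [hs, rep_some]
  have d01 : L2 a b ![x₁, y₁, 1] ![x₂, y₂, 1] 0 * L1 a b ![x₁, y₁, 1] ![x₂, y₂, 1] 1 =
      L2 a b ![x₁, y₁, 1] ![x₂, y₂, 1] 1 * L1 a b ![x₁, y₁, 1] ![x₂, y₂, 1] 0 := by
    rw [L1_zero, L1_one, L2_zero, L2_one]
    simp only [Matrix.cons_val_zero, Matrix.cons_val_one, Matrix.cons_val]
    linear_combination (- 3*x₁^2*x₂^3*a - 3*x₁^2*x₂*a^2 + 3*x₁^2*y₂^2*a - 3*x₁^2*a*b + 3*x₁*y₁*x₂^3*y₂ + 3*x₁*y₁*x₂*y₂*a - 3*x₁*y₁*y₂^3 + 3*x₁*y₁*y₂*b - 3*x₁*x₂^4*a - 9*x₁*x₂^3*b - 6*x₁*x₂^2*a^2 - 21*x₁*x₂*a*b + 9*x₁*y₂^2*b + x₁*a^3 - 9*x₁*b^2 + 3*y₁*x₂^2*y₂*a + 3*y₁*x₂*y₂^3 + 9*y₁*x₂*y₂*b - y₁*y₂*a^2 - 3*x₂^3*a^2 - 3*x₂^2*y₂^2*a - 18*x₂^2*a*b - 9*x₂*y₂^2*b + x₂*a^3 - 27*x₂*b^2 + 3*a^2*b) * e1 + (3*x₁^5*a - 3*x₁^4*y₁*y₂ + 3*x₁^4*x₂*a + 9*x₁^4*b + 6*x₁^3*a^2 - 6*x₁^2*y₁*y₂*a + 6*x₁^2*x₂*a^2 + 30*x₁^2*a*b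 - 12*x₁*y₁*y₂*b + 12*x₁*x₂*a*b - x₁*a^3 + 36*x₁*b^2 + y₁*y₂*a^2 - x₂*a^3 - 3*a^2*b) * e2
  have d02 : L2 a b ![x₁, y₁, 1] ![x₂, y₂, 1] 0 * L1 a b ![x₁, y₁, 1] ![x₂, y₂, 1] 2 =
      L2 a b ![x₁, y₁, 1] ![x₂, y₂, 1] 2 * L1 a b ![x₁, y₁, 1] ![x₂, y₂, 1] 0 := by
    rw [L1_zero, L1_two, L2_zero, L2_two]
    simp only [Matrix.cons_val_zero, Matrix.cons_val_one, Matrix.cons_val]
    linear_combination (3*x₁*y₁*x₂^3 + 3*x₁*y₁*x₂*a - 3*x₁*y₁*y₂^2 + 3*x₁*y₁*b + 3*x₁*x₂^3*y₂ + 3*x₁*x₂*y₂*a - 3*x₁*y₂^3 + 3*x₁*y₂*b + 3*y₁*x₂^2*a + 3*y₁*x₂*y₂^2 + 9*y₁*x₂*b - y₁*a^2 + 3*x₂^2*y₂*a + 3*x₂*y₂^3 + 9*x₂*y₂*b - y₂*a^2) * e1 + (- 3*x₁^4*y₁ - 3*x₁^4*y₂ - 6*x₁^2*y₁*a - 6*x₁^2*y₂*a - 12*x₁*y₁*b - 12*x₁*y₂*b + y₁*a^2 + y₂*a^2) * e2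
  have d12 : L2 a b ![x₁, y₁, 1] ![x₂, y₂, 1] 1 * L1 a b ![x₁, y₁, 1] ![x₂, y₂, 1] 2 =
      L2 a b ![x₁, y₁, 1] ![x₂, y₂, 1] 2 * L1 a b ![x₁, y₁, 1] ![x₂, y₂, 1] 1 := by
    rw [L1_one, L1_two, L2_one, L2_two]
    simp only [Matrix.cons_val_zero, Matrix.cons_val_one, Matrix.cons_val]
    linear_combination (- 9*x₁^2*x₂^4 - 9*x₁^2*x₂^2*a + 9*x₁^2*x₂*y₂^2 - 9*x₁^2*x₂*b - 12*x₁*x₂^3*a - 9*x₁*x₂^2*y₂^2 - 27*x₁*x₂^2*b + 3*x₁*y₂^2*a - 3*x₁*a*b - 3*x₂^2*a^2 - 3*x₂*y₂^2*a - 9*x₂*a*b + a^3) * e1 + (9*x₁^5*x₂ + 3*x₁^4*a + 18*x₁^3*x₂*a + 36*x₁^2*x₂*b + 6*x₁^2*a^2 - 3*x₁*x₂*a^2 + 12*x₁*a*b - a^3) * e2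
  have r0 : (![x₃, y₃, 1] : Fin 3 → F) 0 = x₃ := rfl
  have r1 : (![x₃, y₃, 1] : Fin 3 → F) 1 = y₃ := rfl
  have r2 : (![x₃, y₃, 1] : Fin 3 → F) 2 = 1 := rfl
  refine ⟨⟨?_, ?_, ?_⟩, ⟨?_, ?_, ?_⟩⟩
  · rw [r0, r1, c0, c1]; ring
  · rw [r0, r2, c0, c2]; ring
  · rw [r1, r2, c1, c2]; ring
  · rw [r0, r1]
    apply mul_left_cancel₀ hD3
    rw [c0, c1] at d01
    linear_combination d01
  · rw [r0, r2]
    apply mul_left_cancel₀ hD3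
    rw [c0, c2] at d02
    linear_combination d02
  · rw [r1, r2]
    apply mul_left_cancel₀ hD3
    rw [c1, c2] at d12
    linear_combination d12

theorem par_dbl [DecidableEq F] {x y : F} (h₁ : (CV a b).toAffine.Nonsingular x y)
    (h₂ : (CV a b).toAffine.Nonsingular x y) (hy : y ≠ -y) :
    Par (L1 a b ![x, y, 1] ![x, y, 1])
      (rep (Affine.Point.some x y h₁ + Affine.Point.some x y h₂ : Pt a b)) ∧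
    Par (L2 a b ![x, y, 1] ![x, y, 1])
      (rep (Affine.Point.some x y h₁ + Affine.Point.some x y h₂ : Pt a b)) := by
  have h2y : 2 * y ≠ 0 := by
    intro h
    apply hy
    linear_combination h
  set l : F := (3 * x ^ 2 + a) / (2 * y) with hl
  set x₃ : F := l ^ 2 - x - x with hx₃
  set y₃ : F := -(l * (x₃ - x) + y) with hy₃
  obtain ⟨h₃, hs⟩ := add_dbl h₁ h₂ rfl hy l x₃ y₃ hl hx₃ hy₃
  have e1 : y ^ 2 = x ^ 3 + a * x + b := eqn_of h₁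
  have hlD : l * (2 * y) = 3 * x ^ 2 + a := by
    rw [hl, div_mul_cancel₀ _ h2y]
  have z0 : L1 a b ![x, y, 1] ![x, y, 1] 0 = 0 := by
    rw [L1_zero]
    simp only [Matrix.cons_val_zero, Matrix.cons_val_one, Matrix.cons_val]
    ring
  have z1 : L1 a b ![x, y, 1] ![x, y, 1] 1 = 0 := by
    rw [L1_one]
    simp only [Matrix.cons_val_zero, Matrix.cons_val_one, Matrix.cons_val]
    ring
  have z2 : L1 a b ![x, y, 1] ![x, y, 1] 2 = 0 := by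
    rw [L1_two]
    simp only [Matrix.cons_val_zero, Matrix.cons_val_one, Matrix.cons_val]
    ring
  have c2 : L2 a b ![x, y, 1] ![x, y, 1] 2 = (2 * y) ^ 3 := by
    rw [L2_two]
    simp only [Matrix.cons_val_zero, Matrix.cons_val_one, Matrix.cons_val]
    linear_combination (-6 * y) * e1
  have c0 : L2 a b ![x, y, 1] ![x, y, 1] 0 = (2 * y) ^ 3 * x₃ := by
    rw [L2_zero, hx₃]
    simp only [Matrix.cons_val_zero, Matrix.cons_val_one, Matrix.cons_val]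
    linear_combination (18 * x * y) * e1 - 2 * y * (l * (2 * y) + (3 * x ^ 2 + a)) * hlD
  have c1 : L2 a b ![x, y, 1] ![x, y, 1] 1 = (2 * y) ^ 3 * y₃ := by
    have hk : (2 * y) ^ 3 * y₃ = -((3 * x ^ 2 + a) * ((3 * x ^ 2 + a) ^ 2 - 12 * x * y ^ 2) +
        8 * y ^ 4) := by
      rw [hy₃, hx₃]
      linear_combination (-((l * (2 * y)) ^ 2 + (l * (2 * y)) * (3 * x ^ 2 + a) +
        (3 * x ^ 2 + a) ^ 2) + 12 * x * y ^ 2) * hlD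
    rw [hk, L2_one]
    simp only [Matrix.cons_val_zero, Matrix.cons_val_one, Matrix.cons_val]
    linear_combination (9 * y ^ 2 - 27 * x ^ 3 - 3 * a * x + 9 * b) * e1
  rw [hs, rep_some]
  have r0 : (![x₃, y₃, 1] : Fin 3 → F) 0 = x₃ := rfl
  have r1 : (![x₃, y₃, 1] : Fin 3 → F) 1 = y₃ := rfl
  have r2 : (![x₃, y₃, 1] : Fin 3 → F) 2 = 1 := rfl
  refine ⟨⟨?_, ?_, ?_⟩, ⟨?_, ?_, ?_⟩⟩
  · rw [z0, z1]; ring
  · rw [z0, z2]; ring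
  · rw [z1, z2]; ring
  · rw [r0, r1, c0, c1]; ring
  · rw [r0, r2, c0, c2]; ring
  · rw [r1, r2, c1, c2]; ring

/-- both laws give multiples of the sum -/
theorem par_add [DecidableEq F] (P Q : Pt a b) :
    Par (L1 a b (rep P) (rep Q)) (rep (P + Q)) ∧ Par (L2 a b (rep P) (rep Q)) (rep (P + Q)) := by
  rcases P with _ | ⟨x₁, y₁, h₁⟩
  · have h0 : (Affine.Point.zero : Pt a b) = 0 := rfl
    rw [h0, zero_add, rep_zero_pt]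
    refine ⟨⟨?_, ?_, ?_⟩, ⟨?_, ?_, ?_⟩⟩ <;>
      simp only [L1_zero, L1_one, L1_two, L2_zero, L2_one, L2_two, Matrix.cons_val_zero,
        Matrix.cons_val_one, Matrix.cons_val] <;> ring
  rcases Q with _ | ⟨x₂, y₂, h₂⟩
  · have h0 : (Affine.Point.zero : Pt a b) = 0 := rfl
    rw [h0, add_zero, rep_zero_pt, rep_some]
    refine ⟨⟨?_, ?_, ?_⟩, ⟨?_, ?_, ?_⟩⟩ <;>
      simp only [L1_zero, L1_one, L1_two, L2_zero, L2_one, L2_two, Matrix.cons_val_zero,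
        Matrix.cons_val_one, Matrix.cons_val] <;> ring
  by_cases hx : x₁ = x₂
  · subst hx
    by_cases hy : y₁ = -y₂
    · subst hy
      rw [add_opp h₁ h₂ rfl rfl, rep_zero_pt, rep_some, rep_some]
      refine ⟨⟨?_, ?_, ?_⟩, ⟨?_, ?_, ?_⟩⟩ <;>
        simp only [L1_zero, L1_one, L1_two, L2_zero, L2_one, L2_two, Matrix.cons_val_zero,
          Matrix.cons_val_one, Matrix.cons_val] <;> ring
    · have e1 : y₁ ^ 2 = x₁ ^ 3 + a * x₁ + b := eqn_of h₁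
      have e2 : y₂ ^ 2 = x₁ ^ 3 + a * x₁ + b := eqn_of h₂
      have h3 : (y₁ - y₂) * (y₁ + y₂) = 0 := by linear_combination e1 - e2
      have h4 : y₁ = y₂ := by
        rcases mul_eq_zero.1 h3 with h | h
        · exact sub_eq_zero.1 h
        · exact absurd (eq_neg_of_add_eq_zero_left h) hy
      subst h4
      exact par_dbl h₁ h₂ hy
  · exact par_gen h₁ h₂ hx

end

end Pool.Agent.Y213.R1
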