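import Pool.Agent.Y213.R1.Classes
import Pool.Agent.Y213.R1.Cert
import Pool.Agent.H901R3.MS.P_PTSK

/-! The main theorem: powers of an elliptic curve of rank at most one. -/

set_option autoImplicit false

namespace Pool.Agent.Y213.R1

open MvPolynomial Pool.Agent.Y213.EC WeierstrassCurve Pool.Agent.H901R3.MS

variable {a b : ℤ}

theorem classes_pow (hΔ : 4 * a ^ 3 + 27 * b ^ 2 ≠ 0)
    (hr : ∀ Q R : Pt (a : ℚ) (b : ℚ), ∃ m n : ℤ, (m ≠ 0 ∨ n ≠ 0) ∧ m • Q + n • R = 0) (g : ℕ) :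
    ∃ C : ℝ, 0 < C ∧ ∀ L : ℝ, 1 ≤ L →
      ∃ (M d : ℕ) (cl : (Fin g → Pt (a : ℚ) (b : ℚ)) → Fin M),
        (M : ℝ) ≤ C * Real.sqrt L ^ g ∧ Real.exp L ≤ d ∧
        ∀ P P', cl P = cl P' → ∀ i, Cong d (vec (P i)) (vec (P' i)) := by
  obtain ⟨C, hC, H⟩ := classes hΔ hr
  refine ⟨C ^ g, by positivity, fun L hL => ?_⟩
  obtain ⟨N, d, cls, h1, h2, h3⟩ := H L hL
  refine ⟨N ^ g, d, fun P => finFunctionFinEquiv (fun i => cls (P i)), ?_, h2, ?_⟩
  · rw [← mul_pow]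
    push_cast
    gcongr
  · intro P P' h i
    exact h3 _ _ (congrFun (finFunctionFinEquiv.injective h) i)

theorem main (hΔ : 4 * a ^ 3 + 27 * b ^ 2 ≠ 0)
    (hr : ∀ Q R : Pt (a : ℚ) (b : ℚ), ∃ m n : ℤ, (m ≠ 0 ∨ n ≠ 0) ∧ m • Q + n • R = 0)
    {g n q : ℕ} (s : ℕ) (κ : Type) [Finite κ] (G : Fin q → Pol ℤ g n) (e : Fin q → Fin g → ℕ)
    (hG : ∀ i, MHomog (G i) (e i)) (μ : MvPolynomial ((Fin (s + 1) × Fin n) ⊕ κ) ℤ)
    (h : ∀ V : Fin g → Fin 3 → ℂ, (∀ i, V i ≠ 0 ∧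
        V i 1 ^ 2 * V i 2 = V i 0 ^ 3 + a * V i 0 * V i 2 ^ 2 + b * V i 2 ^ 3) →
      ∀ (y : Fin (s + 1) → Fin n → ℂ) (c : κ → ℂ),
        (∀ l i, vl (Int.castRingHom ℂ) (G i) V (y l) = 0) →
        ev (Sum.elim (fun l : Fin (s + 1) × Fin n => y l.1 l.2) c) μ = 0) :
    ∃ C : ℝ, 0 < C ∧ ∀ Y : ℝ, 2 ≤ Y →
      ∃ (M : ℕ) (cl : (Fin g → Pt (a : ℚ) (b : ℚ)) → Fin M),
        (M : ℝ) ≤ C * Real.log Y ^ ((g : ℝ) / 2) ∧
        ∀ (P : Fin (s + 1) → Fin g → Pt (a : ℚ) (b : ℚ)) (x : Fin (s + 1) → Fin n → ℤ)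
          (c : κ → ℤ),
          (∀ l i, vl (Int.castRingHom ℤ) (G i) (fun j => vec (P l j)) (x l) = 0) →
          (∀ l l', cl (P l) = cl (P l')) →
          |((ev (Sum.elim (fun l : Fin (s + 1) × Fin n => x l.1 l.2) c) μ : ℤ) : ℝ)| ≤ Y →
          ev (Sum.elim (fun l : Fin (s + 1) × Fin n => x l.1 l.2) c) μ = 0 := by
  obtain ⟨N, K, hN, hcert⟩ := cert a b G μ h
  obtain ⟨C, hC, H⟩ := classes_pow hΔ hr g
  have hN1 : (1 : ℝ) ≤ |(N : ℝ)| := by
    have h1 : (1 : ℤ) ≤ |N| := Int.one_le_abs hN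
    have h2 : ((1 : ℤ) : ℝ) ≤ ((|N| : ℤ) : ℝ) := by exact_mod_cast h1
    push_cast at h2
    exact h2
  have hlN : 0 ≤ Real.log |(N : ℝ)| := Real.log_nonneg hN1
  have hl2 : 0 < Real.log 2 := Real.log_pos (by norm_num)
  set A : ℝ := K + (Real.log |(N : ℝ)| + 1) / Real.log 2 with hA
  have hA0 : 0 < A := by positivity
  refine ⟨C * Real.sqrt A ^ g, by positivity, fun Y hY => ?_⟩
  have hlY : Real.log 2 ≤ Real.log Y := Real.log_le_log (by norm_num) hY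
  have hlY0 : 0 < Real.log Y := lt_of_lt_of_le hl2 hlY
  set L : ℝ := K * Real.log Y + Real.log |(N : ℝ)| + 1 with hL
  have hL1 : 1 ≤ L := by
    have : 0 ≤ K * Real.log Y := by positivity
    linarith
  have hLA : L ≤ A * Real.log Y := by
    have h1 : Real.log |(N : ℝ)| + 1 ≤ (Real.log |(N : ℝ)| + 1) / Real.log 2 * Real.log Y := by
      rw [div_mul_eq_mul_div, le_div_iff₀ hl2]
      gcongr
    rw [hL, hA]
    linarith
  obtain ⟨M, d, cl, h1, h2, h3⟩ := H L hL1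
  refine ⟨M, cl, ?_, ?_⟩
  · refine h1.trans ?_
    have h4 : Real.sqrt L ≤ Real.sqrt A * Real.sqrt (Real.log Y) := by
      rw [← Real.sqrt_mul hA0.le]
      exact Real.sqrt_le_sqrt hLA
    have h5 : Real.sqrt (Real.log Y) ^ g = Real.log Y ^ ((g : ℝ) / 2) := by
      rw [Real.sqrt_eq_rpow, ← Real.rpow_natCast, ← Real.rpow_mul hlY0.le]
      congr 1
      ring
    calc C * Real.sqrt L ^ g ≤ C * (Real.sqrt A * Real.sqrt (Real.log Y)) ^ g := by gcongr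
      _ = C * Real.sqrt A ^ g * Real.sqrt (Real.log Y) ^ g := by rw [mul_pow]; ring
      _ = _ := by rw [h5]
  · intro P x c hx hcl hμ
    set m : ℤ := ev (Sum.elim (fun l : Fin (s + 1) × Fin n => x l.1 l.2) c) μ with hm
    have hdvd : (d : ℤ) ∣ N * m ^ K := by
      refine hcert d (fun j => vec (P 0 j)) (fun j => vec_prim _) (fun j => vec_eqn _) x c ?_
      intro l i
      exact transfer (G i) (e i) (hG i) d _ (fun j => vec (P l j)) (fun j => vec_prim _)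
        (fun j => h3 _ _ (hcl 0 l) j) (x l) (hx l i)
    have hlt : |(N : ℝ)| * Y ^ K < d := by
      refine lt_of_lt_of_le ?_ h2
      have h4 : Real.exp L = Y ^ K * |(N : ℝ)| * Real.exp 1 := by
        rw [hL, Real.exp_add, Real.exp_add, Real.exp_log (by linarith), Real.exp_nat_mul,
          Real.exp_log (by linarith)]
      rw [h4]
      have h5 : 0 < Y ^ K * |(N : ℝ)| := by positivity
      have h6 : (1 : ℝ) < Real.exp 1 := Real.one_lt_exp_iff.2 one_pos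
      nlinarith
    have h0 : N * m ^ K = 0 := by
      by_contra hne
      have h4 : (d : ℤ) ≤ |N * m ^ K| := by
        refine Int.le_of_dvd (abs_pos.2 hne) ?_
        exact (dvd_abs _ _).2 hdvd
      have h5 : (d : ℝ) ≤ |(N : ℝ)| * |(m : ℝ)| ^ K := by
        have h6 : ((d : ℤ) : ℝ) ≤ ((|N * m ^ K| : ℤ) : ℝ) := by exact_mod_cast h4
        push_cast at h6
        rw [abs_mul, abs_pow] at h6
        exact h6
      have h7 : |(N : ℝ)| * |(m : ℝ)| ^ K ≤ |(N : ℝ)| * Y ^ K := by gcongr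
      linarith
    have hK : K ≠ 0 := by
      intro hK
      rw [hK, pow_zero, mul_one] at h0
      exact hN h0
    exact (pow_eq_zero_iff hK).1 ((mul_eq_zero.1 h0).resolve_left hN)

/-- a rational point over `x` gives integral coordinates -/
theorem lift_pt (hΔ : 4 * a ^ 3 + 27 * b ^ 2 ≠ 0) {g n q : ℕ} (G : Fin q → Pol ℤ g n)
    (e : Fin q → Fin g → ℕ) (hG : ∀ i, MHomog (G i) (e i)) (x : Fin n → ℤ)
    (V : Fin g → Fin 3 → ℚ) (hV : ∀ i, OnK (a : ℚ) (b : ℚ) (V i))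
    (h : ∀ i, vl (Int.castRingHom ℚ) (G i) V (fun j => (x j : ℚ)) = 0) :
    ∃ P : Fin g → Pt (a : ℚ) (b : ℚ),
      ∀ i, vl (Int.castRingHom ℤ) (G i) (fun j => vec (P j)) x = 0 := by
  have hD : Disc (a : ℚ) (b : ℚ) := by
    unfold Disc
    refine mul_ne_zero two_ne_zero ?_
    exact_mod_cast hΔ
  choose P u hu hP using fun i => t_PTSK ℚ (a : ℚ) (b : ℚ) (V i) hD (hV i)
  refine ⟨P, fun i => ?_⟩
  have h1 : ((vl (Int.castRingHom ℤ) (G i) (fun j => vec (P j)) x : ℤ) : ℚ) = 0 := by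
    rw [vl_cast]
    choose c hp hc hv using fun j => vec_spec (P j)
    have h2 : (fun j k => ((vec (P j) k : ℤ) : ℚ)) = fun j k => (c j * (u j)⁻¹) * V j k := by
      funext j k
      rw [hv j k, hP j k]
      have := hu j
      field_simp
    rw [h2, vl_scale _ (G i) (e i) (hG i), h i, mul_zero]
  exact_mod_cast h1

end Pool.Agent.Y213.R1
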