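import Mathlib

/-! A Nullstellensatz over the integers. -/

set_option autoImplicit false

namespace Pool.Agent.Y213.R1

open MvPolynomial

attribute [local instance] MvPolynomial.algebraMvPolynomial

theorem null {ι : Type} [Finite ι] (I : Ideal (MvPolynomial ι ℤ)) (μ : MvPolynomial ι ℤ)
    (h : ∀ z : ι → ℂ, (∀ f ∈ I, aeval z f = 0) → aeval z μ = 0) :
    ∃ (N : ℤ) (K : ℕ), N ≠ 0 ∧ C N * μ ^ K ∈ I := by
  classical
  have hmap : (algebraMap (MvPolynomial ι ℤ) (MvPolynomial ι ℚ)) =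
      MvPolynomial.map (algebraMap ℤ ℚ) := rfl
  have hinj : Function.Injective (algebraMap (MvPolynomial ι ℤ) (MvPolynomial ι ℚ)) := by
    rw [hmap]
    exact MvPolynomial.map_injective _ (FaithfulSMul.algebraMap_injective ℤ ℚ)
  set J : Ideal (MvPolynomial ι ℚ) :=
    I.map (algebraMap (MvPolynomial ι ℤ) (MvPolynomial ι ℚ)) with hJ
  have hrad : algebraMap (MvPolynomial ι ℤ) (MvPolynomial ι ℚ) μ ∈ J.radical := by
    rw [Ideal.radical_eq_jacobson, Ideal.jacobson, Ideal.mem_sInf]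
    rintro m ⟨hJm, hm⟩
    letI : Field (MvPolynomial ι ℚ ⧸ m) := Ideal.Quotient.field m
    haveI : Module.Finite ℚ (MvPolynomial ι ℚ ⧸ m) := finite_of_finite_type_of_isJacobsonRing _ _
    haveI : Algebra.IsAlgebraic ℚ (MvPolynomial ι ℚ ⧸ m) := Algebra.IsAlgebraic.of_finite _ _
    let e : (MvPolynomial ι ℚ ⧸ m) →ₐ[ℚ] ℂ := IsAlgClosed.lift
    have key : ∀ f : MvPolynomial ι ℤ, aeval (fun i => e (Ideal.Quotient.mk m (X i))) f =
        e (Ideal.Quotient.mk m (algebraMap (MvPolynomial ι ℤ) (MvPolynomial ι ℚ) f)) := by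
      intro f
      have h2 : ((aeval (fun i => e (Ideal.Quotient.mk m (X i))) :
          MvPolynomial ι ℤ →ₐ[ℤ] ℂ) : MvPolynomial ι ℤ →+* ℂ) =
          ((e : (MvPolynomial ι ℚ ⧸ m) →+* ℂ).comp (Ideal.Quotient.mk m)).comp
            (algebraMap (MvPolynomial ι ℤ) (MvPolynomial ι ℚ)) := by
        apply MvPolynomial.ringHom_ext
        · intro z
          simp
        · intro i
          rw [hmap]
          simp
      exact congrArg (fun φ : MvPolynomial ι ℤ →+* ℂ => φ f) h2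
    have h0 := h (fun i => e (Ideal.Quotient.mk m (X i))) (fun f hf => by
      rw [key, Ideal.Quotient.eq_zero_iff_mem.2 (hJm (Ideal.mem_map_of_mem _ hf)), map_zero])
    rw [key] at h0
    have h1 := e.toRingHom.injective (h0.trans (map_zero e.toRingHom).symm)
    exact Ideal.Quotient.eq_zero_iff_mem.1 h1
  obtain ⟨K, hK⟩ := hrad
  rw [← map_pow, hJ, IsLocalization.mem_map_algebraMap_iff
    (Submonoid.map C (nonZeroDivisors ℤ)) (MvPolynomial ι ℚ)] at hK
  obtain ⟨⟨a, s⟩, hs⟩ := hK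
  obtain ⟨N, hN, hNs⟩ := Submonoid.mem_map.1 s.2
  refine ⟨N, K, nonZeroDivisors.ne_zero hN, ?_⟩
  have h2 : (a : MvPolynomial ι ℤ) = C N * μ ^ K := by
    apply hinj
    rw [← hs, map_mul, mul_comm]
    congr 1
    exact congrArg _ hNs.symm
  rw [← h2]
  exact a.2

end Pool.Agent.Y213.R1
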