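import Pool.Agent.Y213.R1.MainR
import Pool.Agent.Y213.EC.Final

/-! Fibres which are not the whole projective space. -/

set_option autoImplicit false

namespace Pool.Agent.Y213.R1

open MvPolynomial Pool.Agent.Y213.EC WeierstrassCurve Pool.Agent.H901R3.MS

open scoped LinearAlgebra.Projectivization

open scoped Matrix

variable {a b : ℤ}

/-- the exponents of the monomials of degree `k` in `n` variables -/
abbrev Mon (n k : ℕ) : Type :=
  {α : Fin n →₀ ℕ // α ∈ Finset.finsuppAntidiag (Finset.univ : Finset (Fin n)) k}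

/-- the matrix of the values of the monomials -/
def mon {R : Type} [CommRing R] {n k : ℕ} (x : Mon n k → Fin n → R) :
    Matrix (Mon n k) (Mon n k) R :=
  Matrix.of fun β α => ∏ i, x β i ^ (α.1 i)

theorem supp_homog {R : Type} [CommRing R] {n k : ℕ} {f : MvPolynomial (Fin n) R}
    (h : f.IsHomogeneous k) : f.support ⊆ Finset.finsuppAntidiag Finset.univ k := by
  intro m hm
  have h1 := h (mem_support_iff.1 hm)
  rw [Finset.mem_finsuppAntidiag]
  refine ⟨?_, Finset.subset_univ _⟩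
  rw [Finsupp.weight_apply, Finsupp.sum_fintype _ _ (fun _ => by simp)] at h1
  simpa using h1

theorem mon_lin {n k : ℕ} (M : Matrix (Fin n) (Fin n) ℤ) :
    ∃ S : Matrix (Mon n k) (Mon n k) ℤ, ∀ x : Mon n k → Fin n → ℤ,
      mon (fun β => M *ᵥ x β) = mon x * S := by
  classical
  let f : Mon n k → MvPolynomial (Fin n) ℤ := fun α => ∏ i, (∑ j, C (M i j) * X j) ^ (α.1 i)
  have hf : ∀ α, (f α).IsHomogeneous k := by
    intro α
    have h1 : (f α).IsHomogeneous (∑ i, 1 * α.1 i) := by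
      refine IsHomogeneous.prod _ _ _ fun i _ => ?_
      refine IsHomogeneous.pow ?_ _
      refine IsHomogeneous.sum _ _ _ fun j _ => ?_
      have h2 := (isHomogeneous_C (Fin n) (M i j)).mul (isHomogeneous_X ℤ j)
      rwa [zero_add] at h2
    have h3 : ∑ i, 1 * α.1 i = k := by
      have h4 := (Finset.mem_finsuppAntidiag.1 α.2).1
      simpa using h4
    rwa [h3] at h1
  refine ⟨Matrix.of fun β α => (f α).coeff β.1, fun x => ?_⟩
  ext β α
  have h1 : eval (x β) (f α) = ∏ i, (M *ᵥ x β) i ^ (α.1 i) := by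
    simp only [f, map_prod, map_pow, map_sum, map_mul, eval_C, eval_X]
    rfl
  have h2 := Pool.Agent.W305.SA.DET.eval_eq_sum
    (Finset.finsuppAntidiag (Finset.univ : Finset (Fin n)) k) (f α) (supp_homog (hf α)) (x β)
  rw [h1] at h2
  rw [Matrix.mul_apply]
  change ∏ i, (M *ᵥ x β) i ^ (α.1 i) = _
  rw [h2]
  refine Finset.sum_congr rfl fun γ _ => ?_
  rw [mul_comm]
  rfl

theorem mon_det {n k : ℕ} (M : Matrix (Fin n) (Fin n) ℤ) (hM : IsUnit M.det)
    (x : Mon n k → Fin n → ℤ) : (mon x).det.natAbs = (mon (fun β => M *ᵥ x β)).det.natAbs := by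
  classical
  obtain ⟨S, hS⟩ := mon_lin (k := k) M
  obtain ⟨S', hS'⟩ := mon_lin (k := k) M⁻¹
  have h1 : (mon (fun β => M *ᵥ x β)).det = (mon x).det * S.det := by
    rw [hS, Matrix.det_mul]
  have h2 : (mon x).det = (mon (fun β => M *ᵥ x β)).det * S'.det := by
    rw [← Matrix.det_mul, ← hS']
    congr 2
    funext β
    rw [Matrix.mulVec_mulVec, Matrix.nonsing_inv_mul _ hM, Matrix.one_mulVec]
  refine Nat.dvd_antisymm ?_ ?_
  · rw [Int.natAbs_dvd_natAbs]
    exact ⟨_, h1⟩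
  · rw [Int.natAbs_dvd_natAbs]
    exact ⟨_, h2⟩

theorem mon_bound {n k : ℕ} (M : Matrix (Fin n) (Fin n) ℤ) (hM : IsUnit M.det)
    (x : Mon n k → Fin n → ℤ) (Y : ℝ) (hY : 1 ≤ Y) (hx : ∀ β i, |(((M *ᵥ x β) i : ℤ) : ℝ)| ≤ Y) :
    |((mon x).det : ℝ)| ≤ (Fintype.card (Mon n k)).factorial * Y ^ (k * Fintype.card (Mon n k)) := by
  classical
  have h0 : |((mon x).det : ℝ)| = |((mon (fun β => M *ᵥ x β)).det : ℝ)| := by
    have h1 := mon_det M hM x
    rw [← Int.cast_abs, ← Int.cast_abs, Int.abs_eq_natAbs, Int.abs_eq_natAbs, h1]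
  rw [h0]
  have h1 : ((mon (fun β => M *ᵥ x β)).det : ℝ) =
      ((mon (fun β => M *ᵥ x β)).map (Int.castRingHom ℝ)).det := by
    rw [← RingHom.mapMatrix_apply, ← RingHom.map_det]
    rfl
  rw [h1]
  have h2 : ∀ β α, (AbsoluteValue.abs : AbsoluteValue ℝ ℝ)
      ((mon (k := k) (fun β => M *ᵥ x β)).map (Int.castRingHom ℝ) β α) ≤ Y ^ k := by
    intro β α
    change |(((∏ i, (M *ᵥ x β) i ^ (α.1 i) : ℤ)) : ℝ)| ≤ Y ^ k
    push_cast
    rw [Finset.abs_prod]
    have h3 : ∑ i, α.1 i = k := (Finset.mem_finsuppAntidiag.1 α.2).1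
    have h4 : Y ^ k = ∏ i, Y ^ (α.1 i) := by rw [Finset.prod_pow_eq_pow_sum, h3]
    rw [h4]
    refine Finset.prod_le_prod (fun i _ => abs_nonneg _) fun i _ => ?_
    rw [abs_pow]
    exact pow_le_pow_left₀ (abs_nonneg _) (hx β i) _
  have h3 := Matrix.det_le h2
  refine h3.trans (le_of_eq ?_)
  rw [nsmul_eq_mul, pow_mul]

/-- the determinant of the monomials in `s + 1` general points -/
noncomputable def muA (n k s : ℕ) (e : Fin (s + 1) ≃ Mon n k) :
    MvPolynomial ((Fin (s + 1) × Fin n) ⊕ Empty) ℤ :=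
  (Matrix.of fun l l' : Fin (s + 1) => ∏ j, X (Sum.inl (l, j)) ^ ((e l').1 j)).det

theorem ev_muA {R : Type} [CommRing R] (n k s : ℕ) (e : Fin (s + 1) ≃ Mon n k)
    (y : Fin (s + 1) → Fin n → R) (c : Empty → R) :
    ev (Sum.elim (fun l : Fin (s + 1) × Fin n => y l.1 l.2) c) (muA n k s e) =
      (mon (fun β => y (e.symm β))).det := by
  have h1 : ev (Sum.elim (fun l : Fin (s + 1) × Fin n => y l.1 l.2) c) (muA n k s e) =
      eval₂Hom (Int.castRingHom R) (Sum.elim (fun l : Fin (s + 1) × Fin n => y l.1 l.2) c)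
        (muA n k s e) := rfl
  rw [h1, muA, RingHom.map_det, ← Matrix.det_submatrix_equiv_self e.symm]
  congr 1
  ext β α
  simp [mon]

theorem partA (hΔ : 4 * a ^ 3 + 27 * b ^ 2 ≠ 0)
    (hr : ∀ Q R : Pt (a : ℚ) (b : ℚ), ∃ m n : ℤ, (m ≠ 0 ∨ n ≠ 0) ∧ m • Q + n • R = 0)
    {g n q : ℕ} (G : Fin q → Pol ℤ g (n + 1)) (d : Fin q → Fin g → ℕ) (m : Fin q → ℕ)
    (hG : ∀ e, MHomog (G e) (d e)) (hX : ∀ e, XHomog (G e) (m e)) (k : ℕ) (hk : ∀ e, m e ≤ k)
    (hfib : ∀ V : Fin g → Fin 3 → ℂ, (∀ i, OnK (a : ℂ) (b : ℂ) (V i)) →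
      Fib (Int.castRingHom ℂ) G V ≠ Set.univ) :
    ∃ C : ℝ, 0 < C ∧ ∀ Y : ℝ, 2 ≤ Y → ∀ M : Matrix (Fin (n + 1)) (Fin (n + 1)) ℤ,
      IsUnit M.det → ∃ FF : Finset (MvPolynomial (Fin (n + 1)) ℚ),
        (FF.card : ℝ) ≤ C * Real.log Y ^ ((g : ℝ) / 2) ∧
        (∀ f ∈ FF, f ≠ 0 ∧ f.IsHomogeneous k) ∧
        ∀ x : Fin (n + 1) → ℤ, (∀ i, |(((M *ᵥ x) i : ℤ) : ℝ)| ≤ Y) →
          (∃ V : Fin g → Fin 3 → ℚ, (∀ i, OnK (a : ℚ) (b : ℚ) (V i)) ∧
            ∀ e, vl (Int.castRingHom ℚ) (G e) V (fun j => (x j : ℚ)) = 0) →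
          ∃ f ∈ FF, eval (fun i => (x i : ℚ)) f = 0 := by
  classical
  -- the number of monomials
  obtain ⟨s, hs⟩ : ∃ s, Fintype.card (Mon (n + 1) k) = s + 1 := by
    refine Nat.exists_eq_succ_of_ne_zero ?_
    rw [← Nat.pos_iff_ne_zero, Fintype.card_pos_iff]
    refine ⟨⟨Finsupp.single 0 k, ?_⟩⟩
    rw [Finset.mem_finsuppAntidiag]
    refine ⟨?_, Finset.subset_univ _⟩
    simp [Finsupp.single_apply]
  let e : Fin (s + 1) ≃ Mon (n + 1) k := (Fintype.equivFinOfCardEq hs).symm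
  obtain ⟨C, hC, H⟩ := main hΔ hr (n := n + 1) s Empty G d hG (muA (n + 1) k s e) (by
    intro V hV y c hy
    rw [ev_muA]
    have h1 := hfib V hV
    rw [Set.ne_univ_iff_exists_notMem] at h1
    obtain ⟨z, hz⟩ := h1
    have hz' : ∃ i, vl (Int.castRingHom ℂ) (G i) V z.rep ≠ 0 := by
      by_contra hcon
      push Not at hcon
      exact hz hcon
    obtain ⟨i, hi⟩ := hz'
    have hne : spc (Int.castRingHom ℂ) (G i) V ≠ 0 := by
      intro h
      rw [vl_eq, h, map_zero] at hi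
      exact hi rfl
    have hg1 : (spc (Int.castRingHom ℂ) (G i) V).IsHomogeneous (m i) :=
      homog_of_supp (spc_support _ _ _ (hX i) _)
    have hg2 : (spc (Int.castRingHom ℂ) (G i) V * X 0 ^ (k - m i)).IsHomogeneous k := by
      have h4 := hg1.mul ((isHomogeneous_X ℂ (0 : Fin (n + 1))).pow (k - m i))
      have h5 : m i + 1 * (k - m i) = k := by have := hk i; omega
      rwa [h5] at h4
    set f := spc (Int.castRingHom ℂ) (G i) V * X 0 ^ (k - m i) with hf
    have hf0 : f ≠ 0 := mul_ne_zero hne (pow_ne_zero _ (X_ne_zero _))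
    rw [← Matrix.exists_mulVec_eq_zero_iff]
    refine ⟨fun α : Mon (n + 1) k => f.coeff α.1, ?_, ?_⟩
    · intro h
      apply hf0
      ext α
      rw [coeff_zero]
      by_cases hα : α ∈ f.support
      · exact congrFun h ⟨α, supp_homog hg2 hα⟩
      · exact notMem_support_iff.1 hα
    · funext β
      have h2 := Pool.Agent.W305.SA.DET.eval_eq_sum
        (Finset.finsuppAntidiag (Finset.univ : Finset (Fin (n + 1))) k) f (supp_homog hg2)
        (y (e.symm β))
      have h3 : eval (y (e.symm β)) f = 0 := by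
        rw [hf, map_mul, ← vl_eq, hy (e.symm β) i, zero_mul]
      rw [h3] at h2
      change ∑ α : Mon (n + 1) k, (∏ i, y (e.symm β) i ^ (α.1 i)) * f.coeff α.1 = 0
      rw [h2]
      exact Finset.sum_congr rfl fun α _ => mul_comm _ _)
  have hl2 : 0 < Real.log 2 := Real.log_pos (by norm_num)
  set F : ℝ := ((s + 1).factorial : ℝ) with hF
  have hF1 : 1 ≤ F := by
    rw [hF]
    exact_mod_cast Nat.factorial_pos (s + 1)
  have hlF : 0 ≤ Real.log F := Real.log_nonneg hF1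
  set A : ℝ := (k * (s + 1) + 1 : ℕ) + Real.log F / Real.log 2 with hA
  have hA0 : 0 < A := by positivity
  refine ⟨C * A ^ ((g : ℝ) / 2), by positivity, fun Y hY M hM => ?_⟩
  have hY1 : (1 : ℝ) ≤ Y := by linarith
  have hlY : Real.log 2 ≤ Real.log Y := Real.log_le_log (by norm_num) hY
  have hlY0 : 0 < Real.log Y := lt_of_lt_of_le hl2 hlY
  set Y' : ℝ := F * Y ^ (k * (s + 1) + 1) with hY'
  have hYY : 2 ≤ Y' := by
    calc (2 : ℝ) ≤ 1 * Y ^ 1 := by linarith [pow_one Y]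
      _ ≤ F * Y ^ (k * (s + 1) + 1) := by
        have := pow_le_pow_right₀ hY1 (show 1 ≤ k * (s + 1) + 1 by omega)
        gcongr
  obtain ⟨N, cl, hN, hcl⟩ := H Y' hYY
  have hlog : Real.log Y' ≤ A * Real.log Y := by
    rw [hY', Real.log_mul (by positivity) (by positivity), Real.log_pow, hA]
    have h1 : Real.log F ≤ Real.log F / Real.log 2 * Real.log Y := by
      rw [div_mul_eq_mul_div, le_div_iff₀ hl2]
      gcongr
    linarith
  have key : ∀ c : Fin N, ∃ f : MvPolynomial (Fin (n + 1)) ℚ, f ≠ 0 ∧ f.IsHomogeneous k ∧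
      ∀ x : Fin (n + 1) → ℤ, (∀ i, |(((M *ᵥ x) i : ℤ) : ℝ)| ≤ Y) →
        (∃ P : Fin g → Pt (a : ℚ) (b : ℚ), cl P = c ∧
          ∀ i, vl (Int.castRingHom ℤ) (G i) (fun j => vec (P j)) x = 0) →
        eval (fun i => (x i : ℚ)) f = 0 := by
    intro c
    set Z : Set (Fin (n + 1) → ℚ) := {z | ∃ x : Fin (n + 1) → ℤ, z = (fun i => (x i : ℚ)) ∧
      (∀ i, |(((M *ᵥ x) i : ℤ) : ℝ)| ≤ Y) ∧
        ∃ P : Fin g → Pt (a : ℚ) (b : ℚ), cl P = c ∧
          ∀ i, vl (Int.castRingHom ℤ) (G i) (fun j => vec (P j)) x = 0} with hZ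
    by_cases hspan : Submodule.span ℚ ((fun x : Fin (n + 1) → ℚ =>
        fun α : {α // α ∈ Finset.finsuppAntidiag (Finset.univ : Finset (Fin (n + 1))) k} =>
          ∏ i, x i ^ (α.1 i)) '' Z) = ⊤
    · exfalso
      obtain ⟨z, hz, hdet⟩ := Pool.Agent.W305.SA.DET.caseB _ Z hspan
      choose x hx1 hx2 P hP1 hP2 using hz
      obtain ⟨x', hx'⟩ : ∃ x' : Fin (s + 1) → Fin (n + 1) → ℤ, ∀ l, x' l = x (e l) :=
        ⟨fun l => x (e l), fun _ => rfl⟩
      have h2 : (fun β => x' (e.symm β)) = x := by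
        funext β
        rw [hx', e.apply_symm_apply]
      have h1 := hcl (fun l => P (e l)) x' Empty.elim (fun l i => by
          rw [hx']
          exact hP2 (e l) i)
        (fun l l' => by
          show cl (P (e l)) = cl (P (e l'))
          rw [hP1, hP1]) (by
          rw [ev_muA, h2]
          refine (mon_bound M hM x Y hY1 hx2).trans ?_
          rw [hs, hY']
          have := pow_le_pow_right₀ hY1 (show k * (s + 1) ≤ k * (s + 1) + 1 by omega)
          gcongr)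
      rw [ev_muA, h2] at h1
      apply hdet
      have h3 : (((mon x).det : ℤ) : ℚ) = 0 := by rw [h1, Int.cast_zero]
      have h4 : (((mon x).det : ℤ) : ℚ) = ((mon x).map (Int.castRingHom ℚ)).det := by
        rw [← RingHom.mapMatrix_apply, ← RingHom.map_det]
        rfl
      rw [h4] at h3
      rw [← h3]
      congr 1
      ext β α
      simp only [Matrix.of_apply, Matrix.map_apply, mon]
      rw [hx1 β]
      simp
    · obtain ⟨Γ, hΓ0, hΓs, hΓ⟩ := Pool.Agent.W305.SA.DET.caseA _ Z hspan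
      refine ⟨Γ, hΓ0, homog_of_supp hΓs, fun x hx hP => hΓ _ ⟨x, rfl, hx, hP⟩⟩
  choose f hf0 hfh hf using key
  refine ⟨Finset.univ.image f, ?_, ?_, ?_⟩
  · have h1 : ((Finset.univ.image f).card : ℝ) ≤ N := by
      have h2 : (Finset.univ.image f).card ≤ N := by
        refine Finset.card_image_le.trans ?_
        rw [Finset.card_univ, Fintype.card_fin]
      exact_mod_cast h2
    refine h1.trans (hN.trans ?_)
    rw [mul_assoc, ← Real.mul_rpow hA0.le hlY0.le]
    have h3 : 0 ≤ Real.log Y' := Real.log_nonneg (by linarith)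
    gcongr
  · intro f' hf'
    rw [Finset.mem_image] at hf'
    obtain ⟨x, _, rfl⟩ := hf'
    exact ⟨hf0 x, hfh x⟩
  · rintro x hx ⟨V, hV, h⟩
    obtain ⟨P, hP⟩ := lift_pt hΔ G d hG x V hV h
    exact ⟨f (cl P), Finset.mem_image_of_mem _ (Finset.mem_univ _), hf (cl P) x hx ⟨P, rfl, hP⟩⟩

end Pool.Agent.Y213.R1
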