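import Pool.Agent.Y213.R1.MainR
import Pool.Agent.Y213.EC.Final

/-! Finite fibres. -/

set_option autoImplicit false

namespace Pool.Agent.Y213.R1

open MvPolynomial Pool.Agent.Y213.EC WeierstrassCurve Pool.Agent.H901R3.MS

open scoped LinearAlgebra.Projectivization

variable {a b : ℤ}

theorem bezout {ι : Type} [Fintype ι] (f : ι → ℤ) (hf : ∃ i, f i ≠ 0) :
    ∃ (δ : ℕ) (c : ι → ℤ), δ ≠ 0 ∧ (∀ i, (δ : ℤ) ∣ f i) ∧ ∑ i, c i * f i = δ := by
  obtain ⟨i₀, hi₀⟩ := hf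
  obtain ⟨g, hg⟩ := (IsPrincipalIdealRing.principal (Ideal.span (Set.range f))).principal
  have hdv : ∀ i, g ∣ f i := by
    intro i
    have h2 : f i ∈ Ideal.span (Set.range f) := Ideal.subset_span ⟨i, rfl⟩
    rwa [hg, Ideal.submodule_span_eq, Ideal.mem_span_singleton] at h2
  have hgm : g ∈ Ideal.span (Set.range f) := by
    rw [hg, Ideal.submodule_span_eq]
    exact Ideal.mem_span_singleton_self g
  rw [Ideal.span, Finsupp.mem_span_range_iff_exists_finsupp] at hgm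
  obtain ⟨c, hc⟩ := hgm
  rw [Finsupp.sum_fintype _ _ (fun _ => by simp)] at hc
  refine ⟨g.natAbs, fun i => g.sign * c i, ?_, fun i => Int.natAbs_dvd.2 (hdv i), ?_⟩
  · intro h
    have hg0 : g = 0 := Int.natAbs_eq_zero.1 h
    exact hi₀ (zero_dvd_iff.1 (hg0 ▸ hdv i₀))
  · have h1 : ∑ i, g.sign * c i * f i = g.sign * ∑ i, c i • f i := by
      rw [Finset.mul_sum]
      refine Finset.sum_congr rfl fun i _ => ?_
      rw [smul_eq_mul, mul_assoc]
    rw [h1, hc, Int.sign_mul_self_eq_natAbs]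

/-- the index type of the auxiliary variables -/
abbrev Kap (s n : ℕ) : Type := (Fin (s + 1) × Fin (s + 1)) × (Fin n × Fin n)

/-- a general combination of the minors of two of the points -/
noncomputable def fac (s n : ℕ) (p : Fin (s + 1) × Fin (s + 1)) :
    MvPolynomial ((Fin (s + 1) × Fin n) ⊕ Kap s n) ℤ :=
  ∑ ij : Fin n × Fin n, X (Sum.inr (p, ij)) * (X (Sum.inl (p.1, ij.1)) * X (Sum.inl (p.2, ij.2)) -
    X (Sum.inl (p.1, ij.2)) * X (Sum.inl (p.2, ij.1)))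

/-- the product over all pairs -/
noncomputable def muB (s n : ℕ) : MvPolynomial ((Fin (s + 1) × Fin n) ⊕ Kap s n) ℤ :=
  ∏ p ∈ (Finset.univ : Finset (Fin (s + 1) × Fin (s + 1))).filter (fun p => p.1 ≠ p.2), fac s n p

theorem ev_fac {R : Type} [CommRing R] (s n : ℕ) (y : Fin (s + 1) → Fin n → R)
    (c : Kap s n → R) (p : Fin (s + 1) × Fin (s + 1)) :
    ev (Sum.elim (fun l : Fin (s + 1) × Fin n => y l.1 l.2) c) (fac s n p) =
      ∑ ij : Fin n × Fin n, c (p, ij) * (y p.1 ij.1 * y p.2 ij.2 - y p.1 ij.2 * y p.2 ij.1) := by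
  simp only [ev, fac, eval₂_sum, eval₂_mul, eval₂_sub, eval₂_X, Sum.elim_inl, Sum.elim_inr]

theorem ev_muB {R : Type} [CommRing R] (s n : ℕ) (y : Fin (s + 1) → Fin n → R)
    (c : Kap s n → R) :
    ev (Sum.elim (fun l : Fin (s + 1) × Fin n => y l.1 l.2) c) (muB s n) =
      ∏ p ∈ (Finset.univ : Finset (Fin (s + 1) × Fin (s + 1))).filter (fun p => p.1 ≠ p.2),
        ∑ ij : Fin n × Fin n, c (p, ij) * (y p.1 ij.1 * y p.2 ij.2 - y p.1 ij.2 * y p.2 ij.1) := by
  have h1 : ev (Sum.elim (fun l : Fin (s + 1) × Fin n => y l.1 l.2) c) (muB s n) =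
      eval₂Hom (Int.castRingHom R) (Sum.elim (fun l : Fin (s + 1) × Fin n => y l.1 l.2) c)
        (muB s n) := rfl
  rw [h1, muB, map_prod]
  refine Finset.prod_congr rfl fun p _ => ?_
  exact ev_fac s n y c p

theorem partB (hΔ : 4 * a ^ 3 + 27 * b ^ 2 ≠ 0)
    (hr : ∀ Q R : Pt (a : ℚ) (b : ℚ), ∃ m n : ℤ, (m ≠ 0 ∨ n ≠ 0) ∧ m • Q + n • R = 0)
    {g n q : ℕ} (G : Fin q → Pol ℤ g n) (d : Fin q → Fin g → ℕ) (k : Fin q → ℕ)
    (hG : ∀ e, MHomog (G e) (d e)) (hX : ∀ e, XHomog (G e) (k e)) (D : ℕ)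
    (hfib : ∀ V : Fin g → Fin 3 → ℂ, (∀ i, OnK (a : ℂ) (b : ℂ) (V i)) →
      (Fib (Int.castRingHom ℂ) G V).encard ≤ D) :
    ∃ C : ℝ, 0 < C ∧ ∀ Y : ℝ, 2 ≤ Y → ∀ T : Finset (Fin n → ℤ),
      (∀ x ∈ T, ∃ V : Fin g → Fin 3 → ℚ, (∀ i, OnK (a : ℚ) (b : ℚ) (V i)) ∧
        ∀ e, vl (Int.castRingHom ℚ) (G e) V (fun j => (x j : ℚ)) = 0) →
      (∀ x ∈ T, ∀ y ∈ T, x ≠ y → (∃ i j, x i * y j ≠ x j * y i) ∧
        ∀ δ : ℕ, (∀ i j, (δ : ℤ) ∣ x i * y j - x j * y i) → (δ : ℝ) ≤ Y) →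
      (T.card : ℝ) ≤ C * Real.log Y ^ ((g : ℝ) / 2) := by
  classical
  obtain ⟨C, hC, H⟩ := main hΔ hr (n := n) (D + 1) (Kap (D + 1) n) G d hG (muB (D + 1) n) (by
    intro V hV y c hy
    rw [ev_muB]
    have key : ∃ l l', l ≠ l' ∧ ∀ i j, y l i * y l' j - y l j * y l' i = 0 := by
      by_cases h0 : ∃ l, y l = 0
      · obtain ⟨l, hl⟩ := h0
        obtain ⟨l', hl'⟩ : ∃ l' : Fin (D + 1 + 1), l ≠ l' := by
          rcases eq_or_ne l 0 with h | h
          · exact ⟨Fin.last (D + 1), by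
              rw [h]
              intro h2
              have := congrArg Fin.val h2
              simp at this⟩
          · exact ⟨0, h⟩
        refine ⟨l, l', hl', fun i j => ?_⟩
        rw [hl]
        simp
      · push Not at h0
        by_contra hcon
        have hinj : Function.Injective fun l => Projectivization.mk ℂ (y l) (h0 l) := by
          intro l l' hll
          by_contra hne
          apply hcon
          refine ⟨l, l', hne, fun i j => ?_⟩
          obtain ⟨z, hz⟩ := (Projectivization.mk_eq_mk_iff' _ _ _ _ _).1 hll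
          rw [← hz]
          simp only [Pi.smul_apply, smul_eq_mul]
          ring
        have h1 := Set.encard_le_encard (s := Set.range fun l => Projectivization.mk ℂ (y l) (h0 l))
          (t := Fib (Int.castRingHom ℂ) G V) (by
            rintro _ ⟨l, rfl⟩
            exact mem_fib _ G k hX V (y l) (h0 l) (hy l))
        have h2 := (hinj.encard_range.trans h1).trans (hfib V hV)
        simp only [ENat.card_eq_coe_fintype_card, Fintype.card_fin] at h2
        have h3 : D + 1 + 1 ≤ D := by exact_mod_cast h2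
        omega
    obtain ⟨l, l', hne, h0⟩ := key
    refine Finset.prod_eq_zero (i := (l, l')) ?_ ?_
    · rw [Finset.mem_filter]
      exact ⟨Finset.mem_univ _, hne⟩
    · refine Finset.sum_eq_zero fun ij _ => ?_
      rw [h0, mul_zero])
  set E : ℕ := (D + 1 + 1) * (D + 1 + 1) with hE
  refine ⟨(D + 1) * (C * (E : ℝ) ^ ((g : ℝ) / 2)), by positivity, fun Y hY T hT1 hT2 => ?_⟩
  have hY1 : (1 : ℝ) ≤ Y := by linarith
  have hlY : 0 ≤ Real.log Y := Real.log_nonneg hY1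
  obtain ⟨M, cl, hM, hcl⟩ := H (Y ^ E) (by
    calc (2 : ℝ) ≤ Y := hY
      _ = Y ^ 1 := (pow_one _).symm
      _ ≤ Y ^ E := pow_le_pow_right₀ hY1 (by rw [hE]; nlinarith))
  rw [Real.log_pow, Real.mul_rpow (Nat.cast_nonneg _) hlY, ← mul_assoc] at hM
  -- rational points over the elements of `T`
  have hP : ∀ x : T, ∃ P : Fin g → Pt (a : ℚ) (b : ℚ),
      ∀ e, vl (Int.castRingHom ℤ) (G e) (fun j => vec (P j)) x = 0 := by
    intro x
    obtain ⟨V, hV, h⟩ := hT1 x x.2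
    exact lift_pt hΔ G d hG x V hV h
  choose P hP using hP
  have hcard : T.card ≤ (D + 1) * M := by
    by_contra hcon
    push Not at hcon
    have h1 : (Finset.univ : Finset (Fin M)).card * (D + 1) < (Finset.univ : Finset T).card := by
      rw [Finset.card_univ, Finset.card_univ, Fintype.card_fin, Fintype.card_coe, mul_comm]
      exact hcon
    obtain ⟨m, _, hm⟩ := Finset.exists_lt_card_fiber_of_mul_lt_card_of_maps_to
      (f := fun x : T => cl (P x)) (fun x _ => Finset.mem_univ _) h1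
    obtain ⟨U, hU, hUc⟩ := Finset.exists_subset_card_eq (show D + 1 + 1 ≤ _ from hm)
    let e : Fin (D + 1 + 1) ≃ U := (Fin.castOrderIso hUc.symm).toEquiv.trans U.equivFin.symm
    have hmem : ∀ l, cl (P (e l)) = m := fun l =>
      (Finset.mem_filter.1 (hU (e l).2)).2
    obtain ⟨x', hx', hxT, hxP⟩ : ∃ x' : Fin (D + 1 + 1) → Fin n → ℤ,
        (∀ l l', l ≠ l' → x' l ≠ x' l') ∧ (∀ l, x' l ∈ T) ∧
        ∀ l i, vl (Int.castRingHom ℤ) (G i) (fun j => vec (P (e l) j)) (x' l) = 0 := by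
      refine ⟨fun l => ((e l : T) : Fin n → ℤ), ?_, fun l => (e l : T).2, fun l i => hP (e l) i⟩
      intro l l' hll h
      exact hll (e.injective (Subtype.ext (Subtype.ext h)))
    have hb : ∀ p : Fin (D + 1 + 1) × Fin (D + 1 + 1), ∃ c : Fin n × Fin n → ℤ, p.1 ≠ p.2 →
        ∃ δ : ℕ, δ ≠ 0 ∧ (δ : ℝ) ≤ Y ∧ ∑ ij : Fin n × Fin n, c ij *
          (x' p.1 ij.1 * x' p.2 ij.2 - x' p.1 ij.2 * x' p.2 ij.1) = δ := by
      intro p
      by_cases hp : p.1 = p.2
      · exact ⟨0, fun h => absurd hp h⟩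
      · obtain ⟨⟨i, j, hij⟩, h2⟩ := hT2 _ (hxT p.1) _ (hxT p.2) (hx' _ _ hp)
        obtain ⟨δ, c, hδ, hδ1, hδ2⟩ := bezout (fun ij : Fin n × Fin n =>
          x' p.1 ij.1 * x' p.2 ij.2 - x' p.1 ij.2 * x' p.2 ij.1) ⟨(i, j), sub_ne_zero.2 hij⟩
        exact ⟨c, fun _ => ⟨δ, hδ, h2 δ (fun i j => hδ1 (i, j)), hδ2⟩⟩
    choose c hc using hb
    obtain ⟨c', hc'⟩ : ∃ c' : Kap (D + 1) n → ℤ, ∀ p ij, c' (p, ij) = c p ij :=
      ⟨fun pij => c pij.1 pij.2, fun _ _ => rfl⟩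
    have hfac : ∀ p ∈ (Finset.univ : Finset (Fin (D + 1 + 1) × Fin (D + 1 + 1))).filter
        (fun p => p.1 ≠ p.2), ∃ δ : ℕ, δ ≠ 0 ∧ (δ : ℝ) ≤ Y ∧ ∑ ij : Fin n × Fin n, c' (p, ij) *
          (x' p.1 ij.1 * x' p.2 ij.2 - x' p.1 ij.2 * x' p.2 ij.1) = δ := by
      intro p hp
      obtain ⟨δ, hδ, hδY, hs⟩ := hc p (Finset.mem_filter.1 hp).2
      refine ⟨δ, hδ, hδY, ?_⟩
      rw [← hs]
      exact Finset.sum_congr rfl fun ij _ => by rw [hc']
    have h0 := hcl (fun l => P (e l)) x' c' hxP (fun l l' => by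
        show cl (P (e l)) = cl (P (e l'))
        rw [hmem l, hmem l']) (by
        rw [ev_muB]
        push_cast
        rw [Finset.abs_prod]
        have h3 : ∀ p ∈ (Finset.univ : Finset (Fin (D + 1 + 1) × Fin (D + 1 + 1))).filter
            (fun p => p.1 ≠ p.2), |∑ ij : Fin n × Fin n, (c' (p, ij) : ℝ) *
            ((x' p.1 ij.1 : ℝ) * (x' p.2 ij.2 : ℝ) - (x' p.1 ij.2 : ℝ) * (x' p.2 ij.1 : ℝ))| ≤
              Y := by
          intro p hp
          obtain ⟨δ, hδ, hδY, hs⟩ := hfac p hp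
          have h4 := congrArg (fun z : ℤ => (z : ℝ)) hs
          push_cast at h4
          rw [h4, abs_of_nonneg (Nat.cast_nonneg _)]
          exact hδY
        refine (Finset.prod_le_prod (fun p _ => abs_nonneg _) h3).trans ?_
        rw [Finset.prod_const]
        refine pow_le_pow_right₀ hY1 ?_
        refine (Finset.card_le_univ _).trans ?_
        rw [Fintype.card_prod, Fintype.card_fin])
    rw [ev_muB, Finset.prod_eq_zero_iff] at h0
    obtain ⟨p, hp, h5⟩ := h0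
    obtain ⟨δ, hδ, hδY, hs⟩ := hfac p hp
    rw [hs] at h5
    exact hδ (by exact_mod_cast h5)
  have h6 : (T.card : ℝ) ≤ (D + 1) * (M : ℝ) := by exact_mod_cast hcard
  refine h6.trans ?_
  rw [mul_assoc ((D : ℝ) + 1)]
  gcongr

end Pool.Agent.Y213.R1
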